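import Mathlib
import Pool.Agent.Lib.MP_cd509c_nt.HeatReal
import Pool.Agent.Lib.MP_cd509c_nt.DerivZeros
import Pool.Agent.Lib.MP_cd509c_nt.MeanSq
import Pool.Agent.Lib.MP_cd509c_nt.Saddle
import Pool.Agent.Lib.MP_cd509c_nt.Convexity

/-!
# Density of the non-real zeros of the derivatives and of the heat flow of the Xi-function of Delta

Definitions and the statements of the pieces.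
-/

set_option autoImplicit false

namespace Pool.Agent.Lib.MP_cd509c_nt.DN

open Complex ComplexConjugate MeasureTheory

/-! ## Definitions -/

/-- The L-function of Delta, critical line `Re w = 0`. -/
noncomputable def LL (w : ℂ) : ℂ := Lf (6 + w)

/-- The Xi-function. -/
noncomputable def Xi (z : ℂ) : ℂ := Lam (6 + I * z)

/-- `x` is good at scale `b` (`l` stands for `log x`). -/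
def Good (ε x b l : ℝ) : Prop :=
  ∀ w w₀ : ℂ, 0 ≤ w.re → w.re ≤ 400 * b → |w.im - x| ≤ 400 * b →
    b / 8 ≤ w₀.re → w₀.re ≤ 400 * b → |w₀.im - x| ≤ 400 * b →
    LL w₀ ≠ 0 ∧ ‖LL w‖ ≤ Real.exp (ε * b * l) * ‖LL w₀‖

/-- Regularity of the normalised function `R`. -/
structure Reg (ε N b Y : ℝ) (R : ℂ → ℂ) : Prop where
  diff : Differentiable ℂ R
  ne : ∀ w : ℂ, b / 4 ≤ w.re → w.re ≤ Y → |w.im| ≤ 20 * b → R w ≠ 0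
  lin : ∀ w v : ℂ, b / 4 ≤ w.re → w.re ≤ Y → |w.im| ≤ 20 * b →
    0 ≤ v.re → v.re ≤ Y → |v.im| ≤ 20 * b →
    ‖R v‖ ≤ Real.exp (ε * N * ‖v - w‖) * ‖R w‖
  tail : ∀ w v : ℂ, b / 4 ≤ w.re → w.re ≤ Y / 2 → |w.im| ≤ 20 * b →
    Y ≤ v.re → |v.im| ≤ 20 * b → ‖R v‖ ≤ Real.exp (ε * N * ‖v - w‖ ^ 2) * ‖R w‖

/-- `lam z = exp (N z) R z`. -/
noncomputable def la (N : ℝ) (R : ℂ → ℂ) (z : ℂ) : ℂ := cexp ((N : ℂ) * z) * R z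

/-- symmetry with respect to the imaginary axis -/
def Sym (f : ℂ → ℂ) : Prop := ∃ c : ℂ, ‖c‖ = 1 ∧ ∀ z, f (-conj z) = c * conj (f z)

/-- logarithmic derivative -/
noncomputable def qq (R : ℂ → ℂ) (w : ℂ) : ℂ := deriv R w / R w

/-- upper bound away from the saddle, derivatives -/
def FarD (N : ℝ) (R : ℂ → ℂ) (w : ℂ) (θ : ℝ) : Prop :=
  ∀ ζ : ℂ, |ζ.re| ≤ 1 / 32 → 7 / 10 ≤ |ζ.im| → |ζ.im| ≤ θ →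
    ‖la N R (w + cexp ζ)‖ ≤ Real.exp (N * (w.re + 1) - N / 20) * ‖R (w + 1)‖

/-- Gaussian average along the horizontal line through `w` -/
noncomputable def FH (N : ℝ) (R : ℂ → ℂ) (w : ℂ) : ℂ :=
  ∫ v : ℝ, la N R (w + v) * cexp (-((N : ℂ) * (v : ℂ) ^ 2 / 2))

/-- half of it -/
noncomputable def BH (N : ℝ) (R : ℂ → ℂ) (w : ℂ) : ℂ :=
  ∫ v in Set.Ioi (0 : ℝ), la N R v * cexp (-((N : ℂ) * ((v : ℂ) - w) ^ 2 / 2))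

/-- arc integral -/
noncomputable def BD (N : ℝ) (R : ℂ → ℂ) (θ : ℝ) (w : ℂ) : ℂ :=
  ∫ φ in (-θ)..θ, la N R (w + cexp (φ * I)) * cexp (-((N : ℂ) * φ) * I)

/-- the normalised function at the point `x`, scale `a` -/
noncomputable def Rx (x a l : ℝ) (z : ℂ) : ℂ :=
  Lam (s0 x + a * z) / m0 x * cexp (-((a * l : ℝ) : ℂ) * z)

/-! ## A. Abstract analysis: saddle points -/

/-- Taylor expansion of the logarithm of a regular function. -/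
def S_tay : Prop := ∀ (ε N b Y : ℝ) (R : ℂ → ℂ), 0 < ε → 0 < N → 1 ≤ b → Reg ε N b Y R →
  ∀ w v : ℂ, b / 4 + 1 / 8 ≤ w.re → w.re ≤ Y - 1 / 8 → |w.im| ≤ 20 * b - 1 / 8 →
    b / 4 + 1 / 8 ≤ v.re → v.re ≤ Y - 1 / 8 → |v.im| ≤ 20 * b - 1 / 8 →
    ‖qq R w‖ ≤ ε * N ∧ ‖qq R v - qq R w‖ ≤ 8 * ε * N * ‖v - w‖ ∧
      ∃ E : ℂ, ‖E‖ ≤ 4 * ε * N * ‖v - w‖ ^ 2 ∧ R v = R w * cexp (qq R w * (v - w) + E)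

/-- Laplace lower bound, circle. -/
def S_lapD : Prop := ∃ η N₀ : ℝ, 0 < η ∧ 1 ≤ N₀ ∧ ∀ N : ℝ, N₀ ≤ N → ∀ Q : ℝ → ℂ,
  IntervalIntegrable Q volume (-(3 / 4)) (3 / 4) →
  (∀ φ : ℝ, |φ| ≤ 3 / 4 → ∃ E : ℂ, ‖E‖ ≤ η * N * φ ^ 2 ∧
    Q φ = cexp ((N : ℂ) * (cexp (φ * I) - 1 - φ * I) + E)) →
  1 / Real.sqrt N ≤ ‖∫ φ in (-(3 / 4) : ℝ)..(3 / 4), Q φ‖

/-- Laplace lower bound, line. -/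
def S_lapH : Prop := ∃ η N₀ : ℝ, 0 < η ∧ 1 ≤ N₀ ∧ ∀ N : ℝ, N₀ ≤ N → ∀ Q : ℝ → ℂ,
  IntervalIntegrable Q volume (-(1 / 4)) (1 / 4) →
  (∀ u : ℝ, |u| ≤ 1 / 4 → ∃ E : ℂ, ‖E‖ ≤ η * N * u ^ 2 ∧
    Q u = cexp (-((N : ℂ) * (u : ℂ) ^ 2 / 2) + E)) →
  1 / Real.sqrt N ≤ ‖∫ u in (-(1 / 4) : ℝ)..(1 / 4), Q u‖

/-- Existence of the saddle point, circle. -/
def S_sadD : Prop := ∀ (ε N b Y : ℝ) (R : ℂ → ℂ), 0 < ε → ε ≤ 1 / 400 → 0 < N → 1 ≤ b →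
  40 * b ≤ Y → Reg ε N b Y R → ∀ w : ℂ, b / 4 - 3 / 8 ≤ w.re → w.re ≤ Y - 4 →
  |w.im| ≤ 20 * b - 3 → ∃ v : ℂ, ‖v - 1‖ ≤ 2 * ε ∧ v * (1 + qq R (w + v) / N) = 1

/-- Existence of the saddle point, line. -/
def S_sadH : Prop := ∀ (ε N b Y : ℝ) (R : ℂ → ℂ), 0 < ε → ε ≤ 1 / 400 → 0 < N → 1 ≤ b →
  40 * b ≤ Y → Reg ε N b Y R → ∀ w : ℂ, b / 4 - 3 / 8 ≤ w.re → w.re ≤ Y - 4 →
  |w.im| ≤ 20 * b - 3 → ∃ v : ℂ, ‖v - (w + 1)‖ ≤ ε ∧ v = w + 1 + qq R v / N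

/-- Lower bound for the arc integral. -/
def S_loD : Prop := ∃ ε₀ N₀ : ℝ, 0 < ε₀ ∧ 1 ≤ N₀ ∧ ∀ (ε N b Y θ : ℝ) (R : ℂ → ℂ) (w : ℂ),
  0 < ε → ε ≤ ε₀ → N₀ ≤ N → 1 ≤ b → 40 * b ≤ Y → Reg ε N b Y R →
  b / 4 - 3 / 8 ≤ w.re → w.re ≤ Y - 4 → |w.im| ≤ 20 * b - 3 →
  Real.pi / 2 ≤ θ → θ ≤ Real.pi → FarD N R w θ →
  Real.exp (N * (w.re + 1) - 5 * ε * N) * ‖R (w + 1)‖ / (2 * Real.sqrt N) ≤ ‖BD N R θ w‖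

/-- Lower bound for the half-line Gaussian integral. -/
def S_loH : Prop := ∃ ε₀ N₀ : ℝ, 0 < ε₀ ∧ 1 ≤ N₀ ∧ ∀ (ε N b Y : ℝ) (R : ℂ → ℂ) (w : ℂ),
  0 < ε → ε ≤ ε₀ → N₀ ≤ N → 1 ≤ b → 40 * b ≤ Y → Reg ε N b Y R →
  b / 4 - 3 / 8 ≤ w.re → w.re ≤ Y / 2 - 2 → |w.im| ≤ 1 / 8 →
  Real.exp (N * (w.re + 1 / 2) - 3 * ε * N) * ‖R (w + 1)‖ / (2 * Real.sqrt N) ≤ ‖BH N R w‖

/-- The bound away from the saddle holds, circle: three cases. -/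
def S_farD : Prop := ∃ ε₀ : ℝ, 0 < ε₀ ∧ ∀ (ε N b Y : ℝ) (R : ℂ → ℂ), 0 < ε → ε ≤ ε₀ → 0 < N →
  1 ≤ b → 40 * b ≤ Y → Reg ε N b Y R →
  (b = 1 → Sym (la N R) → ∀ w : ℂ, |w.re| ≤ 1 / 8 → |w.im| ≤ 1 / 8 → FarD N R w (Real.pi / 2)) ∧
  (b = 1 → Sym (la N R) → ∀ y : ℝ, 1 / 16 ≤ y → y ≤ Y - 4 → FarD N R y Real.pi) ∧
  (∀ y : ℝ, 2 ≤ y → b / 4 ≤ y → y ≤ Y - 4 → FarD N R y Real.pi)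

/-- Hermite-Biehler type monotonicity. -/
def S_HB : Prop := ∀ (ρ η N c : ℝ) (B : ℂ → ℂ), 0 < ρ → 0 < N → 0 ≤ η → η < ρ / 32 →
  DifferentiableOn ℂ B (Metric.ball 0 ρ) →
  (∀ w ∈ Metric.ball (0 : ℂ) ρ, B w ≠ 0 ∧ |Real.log ‖B w‖ - c - N * w.re| ≤ η * N) →
  ∀ y : ℝ, 0 < y → y ≤ ρ / 2 → ‖B (-(y : ℂ))‖ < ‖B y‖

/-- Derivatives: no zeros off the symmetry axis. -/
def S_PD : Prop := ∃ ε₀ N₀ : ℝ, 0 < ε₀ ∧ 1 ≤ N₀ ∧ ∀ (n : ℕ) (ε b Y : ℝ) (R : ℂ → ℂ),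
  0 < ε → ε ≤ ε₀ → N₀ ≤ n → 1 ≤ b → 40 * b ≤ Y → Reg ε n b Y R → Sym (la n R) →
  (b = 1 → ∀ y : ℝ, 0 < y → y ≤ Y / 2 - 2 → iteratedDeriv n (la n R) y ≠ 0) ∧
  (2 ≤ b → ∀ y : ℝ, b ≤ y → y ≤ Y / 2 - 2 → iteratedDeriv n (la n R) y ≠ 0)

/-- Derivatives: growth, for the local zero count. -/
def S_ZD : Prop := ∃ ε₀ N₀ C : ℝ, 0 < ε₀ ∧ 1 ≤ N₀ ∧ 0 < C ∧ ∀ (n : ℕ) (ε b Y : ℝ) (R : ℂ → ℂ),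
  0 < ε → ε ≤ ε₀ → N₀ ≤ n → 1 ≤ b → 40 * b ≤ Y → Reg ε n b Y R → Sym (la n R) →
  iteratedDeriv n (la n R) ((2 * b : ℝ) : ℂ) ≠ 0 ∧
  ∀ w : ℂ, ‖w - ((2 * b : ℝ) : ℂ)‖ ≤ 16 * b →
    ‖iteratedDeriv n (la n R) w‖ ≤ Real.exp (C * n * b) * ‖iteratedDeriv n (la n R) ((2 * b : ℝ) : ℂ)‖

/-- Heat flow: no zeros off the symmetry axis. -/
def S_PH : Prop := ∃ ε₀ N₀ : ℝ, 0 < ε₀ ∧ 1 ≤ N₀ ∧ ∀ (N ε b Y : ℝ) (R : ℂ → ℂ),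
  0 < ε → ε ≤ ε₀ → N₀ ≤ N → 1 ≤ b → 40 * b ≤ Y → Reg ε N b Y R → Sym (la N R) →
  (b = 1 → ∀ y : ℝ, 0 < y → y ≤ Y / 2 - 2 → FH N R y ≠ 0) ∧
  (2 ≤ b → ∀ y : ℝ, b ≤ y → y ≤ Y / 2 - 2 → FH N R y ≠ 0)

/-- Heat flow: growth, for the local zero count. -/
def S_ZH : Prop := ∃ ε₀ N₀ C : ℝ, 0 < ε₀ ∧ 1 ≤ N₀ ∧ 0 < C ∧ ∀ (N ε b Y : ℝ) (R : ℂ → ℂ),
  0 < ε → ε ≤ ε₀ → N₀ ≤ N → 1 ≤ b → 40 * b ≤ Y → Reg ε N b Y R → Sym (la N R) →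
  FH N R ((2 * b : ℝ) : ℂ) ≠ 0 ∧
  ∀ w : ℂ, ‖w - ((2 * b : ℝ) : ℂ)‖ ≤ 16 * b →
    ‖FH N R w‖ ≤ Real.exp (C * N * b) * ‖FH N R ((2 * b : ℝ) : ℂ)‖

/-- Comparison of the two halves of the Gaussian integral for `y` not small. -/
def S_domH : Prop := ∃ ε₀ N₀ : ℝ, 0 < ε₀ ∧ 1 ≤ N₀ ∧ ∀ (N ε b Y y : ℝ) (R : ℂ → ℂ),
  0 < ε → ε ≤ ε₀ → N₀ ≤ N → 1 ≤ b → 40 * b ≤ Y → Reg ε N b Y R → 1 / 64 ≤ y →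
  b / 4 - 3 / 8 ≤ y → y ≤ Y / 2 - 2 → ‖BH N R (-(y : ℂ))‖ ≤ ‖BH N R y‖ / 2

/-- The splitting of the Gaussian integral. -/
def S_splitH : Prop := ∀ (N ε b Y : ℝ) (R : ℂ → ℂ), 0 < N → 0 < ε → ε ≤ 1 / 100 → 1 ≤ b →
  40 * b ≤ Y → Reg ε N b Y R → Sym (la N R) →
  (∃ c : ℂ, ‖c‖ = 1 ∧ ∀ y : ℝ, FH N R y = BH N R y + c * conj (BH N R (-(y : ℂ)))) ∧
  Differentiable ℂ (BH N R)

/-- The number of zeros in a disc. -/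
def S_jen : Prop := ∀ (f : ℂ → ℂ) (c : ℂ) (ρ M : ℝ), Differentiable ℂ f → 0 < ρ →
  (∀ w, ‖w - c‖ ≤ 4 * ρ → ‖f w‖ ≤ M) → f c ≠ 0 → ∀ S : Finset ℂ, (∀ z ∈ S, ‖z - c‖ ≤ ρ) →
  (∑ z ∈ S, (analyticOrderNatAt f z : ℝ)) * Real.log 3 ≤ Real.log (M / ‖f c‖)

/-! ## B. Regularity at good points -/

/-- Every `x` is good at large scales. -/
def S_top : Prop := ∀ ε : ℝ, 0 < ε → ∀ V₁ : ℝ, ∃ V l₀ : ℝ, V₁ ≤ V ∧ 1 ≤ V ∧ ∀ l : ℝ, l₀ ≤ l →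
  ∀ x : ℝ, 0 < x → |Real.log x - l| ≤ 1 → ∀ b : ℝ, V ≤ b → b ≤ 2 * V → Good ε x b l

/-- local step: in the half scale around a point the logarithm is Lipschitz -/
def S_reg1 : Prop := ∀ (ε b l x : ℝ), 0 < ε → 0 < b → 0 < l → Good ε x b l → ∀ w v : ℂ,
  b / 4 ≤ w.re → w.re ≤ 399 * b → |w.im - x| ≤ 399 * b → ‖v - w‖ ≤ b / 16 →
  ‖LL v‖ ≤ Real.exp (32 * ε * l * ‖v - w‖) * ‖LL w‖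

/-- chaining of the scales -/
def S_reg2 : Prop := ∀ (ε a l x : ℝ) (i J : ℕ), 0 < ε → 0 < a → 0 < l → i ≤ J →
  (∀ j : ℕ, i ≤ j → j ≤ J → Good ε x (2 ^ j * a) l) → ∀ w v : ℂ,
  2 ^ i * a / 4 ≤ w.re → w.re ≤ 200 * (2 ^ J * a) → |w.im - x| ≤ 20 * (2 ^ i * a) →
  0 ≤ v.re → v.re ≤ 200 * (2 ^ J * a) → |v.im - x| ≤ 20 * (2 ^ i * a) →
  LL w ≠ 0 ∧ ‖LL v‖ ≤ Real.exp (32 * ε * l * ‖v - w‖) * ‖LL w‖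

/-- Regularity of the normalised function. -/
def S_reg : Prop := ∃ V₀ : ℝ, 1 ≤ V₀ ∧ ∀ ε A V : ℝ, 0 < ε → 1 ≤ A → V₀ ≤ V → ∃ l₀ : ℝ, 1 ≤ l₀ ∧
  ∀ l : ℝ, l₀ ≤ l → ∀ x : ℝ, 0 < x → |Real.log x - l| ≤ 1 → ∀ a : ℝ, 0 < a → a ≤ A → 1 ≤ a * l →
  ∀ i J : ℕ, i ≤ J → V ≤ 2 ^ J * a → 2 ^ J * a ≤ 2 * V →
  (∀ j : ℕ, i ≤ j → j ≤ J → Good (ε / 100) x (2 ^ j * a) l) →
  Reg ε (a * l) (2 ^ i) (100 * V / a) (Rx x a l)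

/-- Symmetry of the normalised function. -/
def S_symR : Prop := ∀ x a l : ℝ, Sym (la (a * l) (Rx x a l))

/-! ## C. Moments -/

/-- local factor of the inverse of `tau` -/
noncomputable def cf (p k : ℕ) : ℂ := if k = 0 then 1 else if k = 1 then -tau p else
  if k = 2 then (p : ℂ) ^ 11 else 0

/-- Dirichlet inverse of `tau` -/
noncomputable def muf (n : ℕ) : ℂ := if n = 0 then 0 else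
  ∏ p ∈ n.primeFactors, cf p (n.factorization p)

/-- weight of the mollifier: smooth, `1` for `u ≤ 1/2`, `0` for `1 ≤ u` -/
noncomputable def Pw (u : ℝ) : ℝ := Real.smoothTransition (2 * (1 - u))

theorem Pw_one {u : ℝ} (h : u ≤ 1 / 2) : Pw u = 1 :=
  Real.smoothTransition.one_of_one_le (by linarith)

theorem Pw_zero {u : ℝ} (h : 1 ≤ u) : Pw u = 0 :=
  Real.smoothTransition.zero_of_nonpos (by linarith)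

theorem Pw_nonneg (u : ℝ) : 0 ≤ Pw u := Real.smoothTransition.nonneg _

theorem Pw_le_one (u : ℝ) : Pw u ≤ 1 := Real.smoothTransition.le_one _

/-- the mollifier of length `X` -/
noncomputable def Mol (X : ℝ) (w : ℂ) : ℂ :=
  ∑ b ∈ Finset.Icc 1 ⌊X⌋₊, muf b * Pw (Real.log b / Real.log X) * (b : ℂ) ^ (-(6 + w))

def S_mufInv : Prop := ∀ n : ℕ, 1 ≤ n →
  ∑ d ∈ n.divisors, muf d * tau (n / d) = if n = 1 then 1 else 0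

def S_mufSum : Prop := ∀ σ : ℝ, 13 / 2 < σ → Summable fun n : ℕ => ‖muf n‖ / (n : ℝ) ^ σ

def S_mufSq : Prop := ∃ C : ℝ, 0 < C ∧ ∀ X : ℝ, 2 ≤ X →
  ∑ b ∈ Finset.Icc 1 ⌊X⌋₊, ‖muf b‖ ^ 2 / (b : ℝ) ^ 12 ≤ C * Real.log X

/-- right edge -/
def S_edge : Prop := ∀ θ : ℝ, 0 < θ → θ ≤ 1 → ∃ C : ℝ, 0 < C ∧ ∀ T : ℝ, 2 ≤ T → ∀ w : ℂ,
  1 ≤ w.re → ‖LL w * Mol (T ^ θ) w - 1‖ ≤ C * T ^ (-(θ / 8))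

/-- crude bound of the mollifier -/
def S_molCrude : Prop := ∃ C : ℝ, 0 < C ∧ ∀ X : ℝ, 1 ≤ X → ∀ w : ℂ, -1 ≤ w.re →
  ‖Mol X w‖ ≤ C * X ^ 3

/-- mean square of the mollifier -/
def S_molSq : Prop := ∀ θ B : ℝ, 0 < θ → θ ≤ 1 / 4 → ∃ C : ℝ, 0 < C ∧ ∀ T : ℝ, 2 ≤ T → ∀ w : ℂ,
  0 ≤ w.re → |w.im| ≤ B → ∫ y in (T / 4)..(8 * T), ‖Mol (T ^ θ) (w + y * I)‖ ^ 2 ≤
    C * T * Real.log T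

/-- Mellin transform on a ray -/
def S_ray : Prop := ∀ δ : ℝ, 0 < δ → δ < Real.pi → ∀ s : ℂ,
  mellin (fun y : ℝ => Dc (y * cexp (δ * I))) s = cexp (I * (Real.pi / 2 - δ) * s) * Lam s

/-- square norm on a ray -/
def S_raySq : Prop := ∃ C : ℝ, 0 < C ∧ ∀ δ : ℝ, 0 < δ → δ ≤ 1 / 2 → ∀ σ : ℝ, 0 ≤ σ → σ ≤ 1 →
  ∫ y in Set.Ioi (0 : ℝ), ‖Dc (y * cexp (δ * I))‖ ^ 2 * y ^ (11 + 2 * σ) ≤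
    C * δ ^ (-(12 + 2 * σ)) * Real.log (1 / δ)

/-- Plancherel inequality for the Mellin transform -/
def S_planch : Prop := ∀ (g : ℝ → ℂ) (c : ℝ), ContinuousOn g (Set.Ioi 0) →
  MellinConvergent g c → IntegrableOn (fun y => ‖g y‖ ^ 2 * y ^ (2 * c - 1)) (Set.Ioi 0) →
  ∀ T₁ T₂ : ℝ, T₁ ≤ T₂ → ∫ t in T₁..T₂, ‖mellin g (c + t * I)‖ ^ 2 ≤
    2 * Real.pi * ∫ y in Set.Ioi (0 : ℝ), ‖g y‖ ^ 2 * y ^ (2 * c - 1)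

/-- lower bound for the Gamma function -/
def S_gamLo : Prop := ∃ c : ℝ, 0 < c ∧ ∀ σ t : ℝ, 0 ≤ σ → σ ≤ 1 → 1 ≤ |t| →
  c * |t| ^ (11 / 2 + σ) * Real.exp (-(Real.pi * |t| / 2)) ≤ ‖Gamma (6 + σ + t * I)‖

/-- second moment of the L-function, right of the critical line -/
def S_LLsq : Prop := ∀ B : ℝ, ∃ C : ℝ, 0 < C ∧ ∀ T : ℝ, 2 ≤ T → ∀ w : ℂ, 0 ≤ w.re → |w.im| ≤ B →
  ∫ y in (T / 4)..(8 * T), ‖LL (w + y * I)‖ ^ 2 ≤ C * T * Real.log T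

/-- reflection -/
def S_neg : Prop := ∃ C : ℝ, 1 ≤ C ∧ ∀ w : ℂ, -1 ≤ w.re → w.re ≤ 0 → 1 ≤ |w.im| →
  ‖LL w‖ ≤ C * |w.im| ^ (-2 * w.re) * ‖LL (-conj w)‖

/-- three lines theorem in mean -/
def S_3L : Prop := ∃ C : ℝ, 0 < C ∧ ∀ (f : ℂ → ℂ) (T G A₀ A₁ : ℝ), 2 ≤ T → 0 < G → 0 < A₀ →
  0 < A₁ → Differentiable ℂ f →
  (∀ w : ℂ, 0 ≤ w.re → w.re ≤ 1 → ‖f w‖ ≤ G * (2 + |w.im|) ^ 8) →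
  (∀ v : ℝ, |v| ≤ T / 8 → ∫ y in (T / 2)..(4 * T), ‖f ((y + v : ℝ) * I)‖ ≤ A₀) →
  (∀ w : ℂ, w.re = 1 → ‖f w‖ ≤ A₁) →
  ∀ σ : ℝ, 0 ≤ σ → σ ≤ 1 → ∫ y in (T / 2)..(4 * T), ‖f (σ + y * I)‖ ≤
    C * (A₀ + G) ^ (1 - σ) * (T * A₁) ^ σ

/-- first interface: `L M - 1` in mean, loss factor `F` -/
def S_I1 (F : ℝ → ℝ) : Prop := ∃ θ₀ : ℝ, 0 < θ₀ ∧ ∀ θ B : ℝ, 0 < θ → θ ≤ θ₀ → 1 ≤ B →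
  ∃ C c : ℝ, 0 < C ∧ 0 < c ∧ ∀ T : ℝ, 2 ≤ T → ∀ σ : ℝ, 0 ≤ σ → σ ≤ B →
    ∫ y in (T / 2)..(4 * T), ‖LL (σ + y * I) * Mol (T ^ θ) (σ + y * I) - 1‖ ≤
      C * T * F T * Real.exp (-(c * σ * Real.log T))

/-- second interface: local variation, loss factor `F` -/
def S_I2 (F : ℝ → ℝ) : Prop := ∃ θ₀ C₁ : ℝ, 0 < θ₀ ∧ 1 ≤ C₁ ∧ ∀ θ B : ℝ, 0 < θ → θ ≤ θ₀ →
  1 ≤ B → ∃ C : ℝ, 0 < C ∧ ∀ T : ℝ, 2 ≤ T → ∀ w v : ℂ, -1 ≤ w.re → w.re ≤ B → |w.im| ≤ B →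
    0 ≤ v.re → v.re ≤ B → |v.im| ≤ B →
    ∫ y in (T / 2)..(4 * T), ‖LL (w + y * I)‖ * ‖Mol (T ^ θ) (v + y * I)‖ ≤
      C * T * F T * Real.exp (C₁ * θ * Real.log T * ‖w - v‖ + C₁ * Real.log T * max 0 (-w.re))

/-! ## D. The set of bad points -/

/-- sub-mean value inequality -/
def S_sub : Prop := ∀ (f : ℂ → ℂ) (w : ℂ) (δ : ℝ), Differentiable ℂ f → 0 < δ →
  ‖f w‖ ≤ 1 / δ ^ 2 * ∫ σ in (w.re - δ)..(w.re + δ), ∫ y in (w.im - δ)..(w.im + δ), ‖f (σ + y * I)‖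

/-- first count -/
def S_cnt1 (F : ℝ → ℝ) : Prop := ∃ θ₀ : ℝ, 0 < θ₀ ∧ ∀ θ B : ℝ, 0 < θ → θ ≤ θ₀ → 1 ≤ B →
  ∃ C c T₀ : ℝ, 0 < C ∧ 0 < c ∧ 2 ≤ T₀ ∧ ∀ T : ℝ, T₀ ≤ T → ∀ b : ℝ, 0 < b → b ≤ B →
    ∀ S : Finset ℤ, (∀ k ∈ S, T ≤ (k + 1) * b ∧ k * b ≤ 2 * T ∧ ∃ w : ℂ, b / 8 ≤ w.re ∧
      w.re ≤ 400 * b ∧ (k - 400) * b ≤ w.im ∧ w.im ≤ (k + 401) * b ∧
      1 / 2 < ‖LL w * Mol (T ^ θ) w - 1‖) →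
    (S.card : ℝ) ≤ C * F T * (T / b) * Real.exp (-(c * b * Real.log T))

/-- second count -/
def S_cnt2 (F : ℝ → ℝ) : Prop := ∃ θ₀ C₁ : ℝ, 0 < θ₀ ∧ 1 ≤ C₁ ∧ ∀ ε θ B : ℝ, 0 < ε → ε ≤ 1 →
  0 < θ → θ ≤ θ₀ → C₁ * θ ≤ ε → 1 ≤ B →
  ∃ C T₀ : ℝ, 0 < C ∧ 2 ≤ T₀ ∧ ∀ T : ℝ, T₀ ≤ T → ∀ b : ℝ, 0 < b → b ≤ B →
    ∀ S : Finset ℤ, (∀ k ∈ S, T ≤ (k + 1) * b ∧ k * b ≤ 2 * T ∧ ∃ w v : ℂ, 0 ≤ w.re ∧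
      w.re ≤ 400 * b ∧ (k - 400) * b ≤ w.im ∧ w.im ≤ (k + 401) * b ∧ b / 8 ≤ v.re ∧
      v.re ≤ 400 * b ∧ (k - 400) * b ≤ v.im ∧ v.im ≤ (k + 401) * b ∧
      1 / 2 * Real.exp (ε * b * Real.log T) < ‖LL w‖ * ‖Mol (T ^ θ) v‖) →
    (S.card : ℝ) ≤ C * F T * (T / b) * Real.exp (-(ε / 2 * b * Real.log T))

/-- the number of bad intervals -/
def S_mb (F : ℝ → ℝ) : Prop := ∀ ε B : ℝ, 0 < ε → 1 ≤ B → ∃ C c T₀ : ℝ, 0 < C ∧ 0 < c ∧ 2 ≤ T₀ ∧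
  ∀ T : ℝ, T₀ ≤ T → ∀ b : ℝ, 0 < b → b ≤ B → ∀ S : Finset ℤ,
    (∀ k ∈ S, T ≤ (k + 1) * b ∧ k * b ≤ 2 * T ∧
      ∃ x ∈ Set.Icc (k * b) ((k + 1) * b), ¬ Good ε x b (Real.log T)) →
    (S.card : ℝ) ≤ C * F T * (T / b) * Real.exp (-(c * b * Real.log T))

/-! ## E. Assembly -/

/-- the combinatorial part -/
def S_asm : Prop := ∀ C₁ C₂ c : ℝ, 0 < C₁ → 0 < C₂ → 0 < c → ∃ C₃ : ℝ, 0 < C₃ ∧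
  ∀ (f : ℂ → ℂ) (T l a N Fv : ℝ) (J : ℕ) (G : ℝ → ℕ → Prop), 1 ≤ N → 0 < a → 0 < l → N = a * l →
  0 ≤ Fv → 1 ≤ T →
  (∀ x : ℝ, T ≤ x → x ≤ 2 * T → (∀ j ≤ J, G x j) → ∀ z : ℂ, f z = 0 → z.re = x → z.im = 0) →
  (∀ x : ℝ, T ≤ x → x ≤ 2 * T → ∀ j ≤ J, 1 ≤ j → (∀ i, j ≤ i → i ≤ J → G x i) →
    ∀ z : ℂ, f z = 0 → z.re = x → |z.im| ≤ 2 ^ j * a) →
  (∀ x : ℝ, T ≤ x → x ≤ 2 * T → ∀ j ≤ J, 1 ≤ j → (∀ i, j ≤ i → i ≤ J → G x i) →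
    ∀ S : Finset ℂ, (∀ z ∈ S, |z.re - x| ≤ 2 ^ j * a ∧ |z.im| ≤ 2 ^ j * a) →
    ∑ z ∈ S, (analyticOrderNatAt f z : ℝ) ≤ C₁ * 2 ^ j * N) →
  (∀ x : ℝ, T ≤ x → x ≤ 2 * T → G x J) →
  (∀ j < J, ∀ S : Finset ℤ, (∀ k ∈ S, T ≤ (k + 1) * (2 ^ j * a) ∧ k * (2 ^ j * a) ≤ 2 * T ∧
    ∃ x ∈ Set.Icc (k * (2 ^ j * a)) ((k + 1) * (2 ^ j * a)), ¬ G x j) →
    (S.card : ℝ) ≤ C₂ * Fv * (T / (2 ^ j * a)) * Real.exp (-(c * 2 ^ j * N))) →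
  ∀ S : Finset ℂ, (∀ z ∈ S, f z = 0 ∧ z.im ≠ 0 ∧ T ≤ z.re ∧ z.re ≤ 2 * T) →
    ∑ z ∈ S, (analyticOrderNatAt f z : ℝ) ≤ C₃ * T * l * Fv * Real.exp (-(c * N))

/-- the zeros of the derivatives lie in a strip -/
def S_stripD : Prop := ∃ B : ℝ, 0 < B ∧ ∀ (n : ℕ) (z : ℂ), iteratedDeriv n Xi z = 0 → |z.im| ≤ B

/-- derivatives of Xi in terms of the normalised function -/
def S_linkD : Prop := ∀ (n : ℕ) (x a l : ℝ) (w : ℂ), 0 < x → 0 < a → (n : ℝ) = a * l →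
  iteratedDeriv n Xi ((x : ℂ) - I * (a * w)) =
    I ^ n * m0 x / (a : ℂ) ^ n * iteratedDeriv n (la n (Rx x a l)) w

/-- the heat flow in terms of the normalised function -/
def S_linkH : Prop := ∀ (t x l : ℝ) (w : ℂ), 0 < x → 0 < t → 0 < l →
  Ht t ((x : ℂ) - I * ((2 * t * l : ℝ) * w)) =
    Nt t * (2 * t * l) * m0 x * FH (2 * t * l * l) (Rx x (2 * t * l) l) w

/-- derivatives, one block -/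
def S_blockD (F : ℝ → ℝ) : Prop := ∀ A : ℝ, 1 ≤ A → ∃ C c T₀ : ℝ, 0 < C ∧ 0 < c ∧ 2 ≤ T₀ ∧
  ∀ (n : ℕ) (T : ℝ), T₀ ≤ T → C ≤ n → (n : ℝ) ≤ A * Real.log T → ∀ S : Finset ℂ,
    (∀ z ∈ S, iteratedDeriv n Xi z = 0 ∧ z.im ≠ 0 ∧ T ≤ z.re ∧ z.re ≤ 2 * T) →
    ∑ z ∈ S, (analyticOrderNatAt (iteratedDeriv n Xi) z : ℝ) ≤
      C * T * Real.log T * F T * Real.exp (-(c * n))

/-- heat flow, one block -/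
def S_blockH (F : ℝ → ℝ) : Prop := ∀ A : ℝ, 1 ≤ A → ∃ C c T₀ : ℝ, 0 < C ∧ 0 < c ∧ 2 ≤ T₀ ∧
  ∀ (t T : ℝ), T₀ ≤ T → 0 < t → C ≤ t * Real.log T ^ 2 → t * Real.log T ≤ A → ∀ S : Finset ℂ,
    (∀ z ∈ S, Ht t z = 0 ∧ z.im ≠ 0 ∧ T ≤ z.re ∧ z.re ≤ 2 * T) →
    ∑ z ∈ S, (analyticOrderNatAt (Ht t) z : ℝ) ≤
      C * T * Real.log T * F T * Real.exp (-(c * t * Real.log T ^ 2))

/-- final statement, derivatives -/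
def S_D (F : ℝ → ℝ) : Prop := ∃ C c : ℝ, 0 < C ∧ 0 < c ∧ ∀ n : ℕ, C ≤ n → ∀ T : ℝ, 2 ≤ T →
  ∀ S : Finset ℂ, (∀ z ∈ S, iteratedDeriv n Xi z = 0 ∧ z.im ≠ 0 ∧ |z.re| ≤ T) →
    ∑ z ∈ S, (analyticOrderNatAt (iteratedDeriv n Xi) z : ℝ) ≤
      C * T * Real.log T * F T * Real.exp (-(c * n))

/-- final statement, heat flow -/
def S_H (F : ℝ → ℝ) : Prop := ∃ C c : ℝ, 0 < C ∧ 0 < c ∧ ∀ t T : ℝ, t ≤ 1 → 2 ≤ T →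
  C ≤ t * Real.log T ^ 2 → ∀ S : Finset ℂ,
    (∀ z ∈ S, Ht t z = 0 ∧ z.im ≠ 0 ∧ T ≤ |z.re| ∧ |z.re| ≤ 2 * T) →
    ∑ z ∈ S, (analyticOrderNatAt (Ht t) z : ℝ) ≤
      C * T * Real.log T * F T * Real.exp (-(c * t * Real.log T ^ 2))

end Pool.Agent.Lib.MP_cd509c_nt.DN
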