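import Pool.Agent.Lib.MP_cd509c_nt.DN.Main4

/-!
# The former hand-ins DerivativeZeros and HeatFlowReal follow from the final theorems alone
-/

set_option autoImplicit false

namespace Pool.Agent.Lib.MP_cd509c_nt.DN

open Complex

/-- The final theorem for the derivatives. -/
def FinalD : Prop := ∃ C c : ℝ, 0 < C ∧ 0 < c ∧ ∀ n : ℕ, C ≤ n → ∀ T : ℝ, 2 ≤ T →
    ∃ R : Finset ℝ, (∀ x ∈ R, |x| ≤ T ∧ iteratedDeriv n Xi x = 0 ∧
        deriv (iteratedDeriv n Xi) x ≠ 0) ∧
      ∀ S : Finset ℂ, (∀ z ∈ S, iteratedDeriv n Xi z = 0 ∧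
        (z.im ≠ 0 ∨ deriv (iteratedDeriv n Xi) z = 0) ∧ |z.re| ≤ T) →
        ∑ z ∈ S, (analyticOrderNatAt (iteratedDeriv n Xi) z : ℝ) ≤
          C * Real.exp (-(c * n)) * min (R.card : ℝ) (T * Real.log T)

/-- The final theorem for the heat flow. -/
def FinalH : Prop := ∃ C c : ℝ, 0 < C ∧ 0 < c ∧ ∀ t T : ℝ, t ≤ 1 → 2 ≤ T →
    C ≤ t * Real.log T ^ 2 →
      ∃ R : Finset ℝ, (∀ x ∈ R, T ≤ x ∧ x ≤ 2 * T ∧ Ht t x = 0 ∧ deriv (Ht t) x ≠ 0) ∧
        ∀ S : Finset ℂ, (∀ z ∈ S, Ht t z = 0 ∧ (z.im ≠ 0 ∨ deriv (Ht t) z = 0) ∧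
          T ≤ |z.re| ∧ |z.re| ≤ 2 * T) →
          ∑ z ∈ S, (analyticOrderNatAt (Ht t) z : ℝ) ≤
            C * Real.exp (-(c * t * Real.log T ^ 2)) * min (R.card : ℝ) (T * Real.log T)

theorem finalD : FinalD := m_Dfinal

theorem finalH : FinalH := m_Hfinal

/-- The order of a zero of an entire function which does not vanish identically. -/
theorem dn_check_order {f : ℂ → ℂ} (hf : Differentiable ℂ f) {z w : ℂ} (hz : f z = 0)
    (hw : f w ≠ 0) : 1 ≤ (analyticOrderNatAt f z : ℝ) := by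
  have ha : AnalyticOnNhd ℂ f Set.univ := analyticOnNhd_univ_iff_differentiable.2 hf
  have h1 : analyticOrderAt f z ≠ ⊤ := by
    intro h
    rw [analyticOrderAt_eq_top] at h
    have := ha.eqOn_zero_of_preconnected_of_eventuallyEq_zero isPreconnected_univ
      (Set.mem_univ z) h
    exact hw (this (Set.mem_univ w))
  have h2 : analyticOrderAt f z ≠ 0 := by
    rw [(ha z (Set.mem_univ z)).analyticOrderAt_ne_zero]
    exact hz
  have h3 : analyticOrderNatAt f z ≠ 0 := by
    unfold analyticOrderNatAt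
    intro h
    rw [ENat.toNat_eq_zero] at h
    rcases h with h | h
    · exact h2 h
    · exact h1 h
  exact_mod_cast Nat.one_le_iff_ne_zero.2 h3

theorem dn_check_log {T : ℝ} (hT : 2 ≤ T) : T * Real.log T ≤ T ^ 2 := by
  have h1 : Real.log T ≤ T := by
    have := Real.log_le_sub_one_of_pos (show 0 < T by linarith)
    linarith
  nlinarith

/-- The former hand-in DerivativeZeros. -/
theorem check_D (h : FinalD) : ∃ C : ℝ, 0 < C ∧ ∀ n : ℕ, C ≤ n → ∀ z : ℂ,
    iteratedDeriv n Xi z = 0 → |z.re| ≤ Real.exp (n / C) →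
      z.im = 0 ∧ deriv (iteratedDeriv n Xi) z ≠ 0 := by
  obtain ⟨C, c, hC, hc, h⟩ := h
  obtain ⟨K, hK⟩ : ∃ K : ℝ, K = C + 4 / c + 2 * (4 * C) / c := ⟨_, rfl⟩
  have hK0 : 0 < K := by rw [hK]; positivity
  refine ⟨K, hK0, fun n hn z hz hre => ?_⟩
  by_contra hbad
  have hbad' : z.im ≠ 0 ∨ deriv (iteratedDeriv n Xi) z = 0 := by
    by_contra h'
    push Not at h'
    exact hbad h'
  have hp1 : 0 < 4 / c := by positivity
  have hp2 : 0 < 2 * (4 * C) / c := by positivity
  have hnC : C ≤ n := by rw [hK] at hn; linarith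
  set T : ℝ := 2 * Real.exp (n / K) with hT
  have hn0 : (0 : ℝ) ≤ n := by linarith
  have hT2 : 2 ≤ T := by
    have : 1 ≤ Real.exp (n / K) := Real.one_le_exp (by positivity)
    rw [hT]; linarith
  obtain ⟨R, -, hR⟩ := h n hnC T hT2
  have h1 := hR {z} (by
    intro w hw
    rw [Finset.mem_singleton] at hw
    subst hw
    refine ⟨hz, hbad', hre.trans ?_⟩
    have := Real.exp_pos (n / K)
    rw [hT]; linarith)
  rw [Finset.sum_singleton] at h1
  have hXd : Differentiable ℂ Xi := by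
    unfold Xi
    exact Lam_differentiable.comp (by fun_prop)
  have hfd : Differentiable ℂ (iteratedDeriv n Xi) := by
    have h2 : ContDiff ℂ (⊤ : ℕ∞) Xi := hXd.contDiff
    exact h2.differentiable_iteratedDeriv n (by exact_mod_cast WithTop.coe_lt_top n)
  have h2 := dn_check_order hfd hz (iteratedDeriv_Xi_imag_ne n I (by simp) (by simp))
  have h3 : C * Real.exp (-(c * n)) * min (R.card : ℝ) (T * Real.log T) ≤
      C * Real.exp (-(c * n)) * T ^ 2 :=
    mul_le_mul_of_nonneg_left ((min_le_right _ _).trans (dn_check_log hT2)) (by positivity)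
  have h4 : T ^ 2 ≤ 4 * Real.exp (c * n / 2) := by
    have h5 : (n : ℝ) / K ≤ c * n / 4 := by
      rw [div_le_iff₀ hK0]
      have h6 : 4 / c ≤ K := by rw [hK]; linarith
      have h7 : c * n / 4 * (4 / c) ≤ c * n / 4 * K := mul_le_mul_of_nonneg_left h6 (by positivity)
      have h8 : c * n / 4 * (4 / c) = n := by field_simp
      linarith
    have h6 : Real.exp (n / K) ^ 2 ≤ Real.exp (c * n / 2) := by
      rw [← Real.exp_nat_mul]
      apply Real.exp_le_exp.2
      push_cast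
      linarith
    rw [hT, mul_pow]
    linarith
  have h5 : C * Real.exp (-(c * n)) * T ^ 2 ≤ 4 * C * Real.exp (-(c * n / 2)) := by
    calc C * Real.exp (-(c * n)) * T ^ 2 ≤
        C * Real.exp (-(c * n)) * (4 * Real.exp (c * n / 2)) :=
          mul_le_mul_of_nonneg_left h4 (by positivity)
      _ = 4 * C * (Real.exp (-(c * n)) * Real.exp (c * n / 2)) := by ring
      _ = _ := by
          rw [← Real.exp_add]
          congr 2
          ring
  have h6 : 4 * C < Real.exp (c * n / 2) := by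
    have h7 : 4 * C ≤ c * n / 2 := by
      have h8 : 2 * (4 * C) / c ≤ n := by rw [hK] at hn; linarith
      rw [div_le_iff₀ hc] at h8
      linarith
    have := Real.add_one_le_exp (c * n / 2)
    linarith
  have h7 : 4 * C * Real.exp (-(c * n / 2)) < 1 := by
    calc 4 * C * Real.exp (-(c * n / 2)) < Real.exp (c * n / 2) * Real.exp (-(c * n / 2)) :=
          mul_lt_mul_of_pos_right h6 (Real.exp_pos _)
      _ = 1 := by rw [← Real.exp_add]; simp
  linarith

/-- The former hand-in HeatFlowReal. -/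
theorem check_H (h : FinalH) : ∃ C : ℝ, 0 < C ∧ ∀ t : ℝ, 0 < t → t ≤ 1 → ∀ z : ℂ,
    Real.exp (C / t) ≤ |z.re| → Ht t z = 0 → z.im = 0 ∧ deriv (Ht t) z ≠ 0 := by
  obtain ⟨C, c, hC, hc, h⟩ := h
  obtain ⟨B, hB, hstrip⟩ := Ht_strip_all
  obtain ⟨K, hK⟩ : ∃ K : ℝ, K = 2 + C + 4 / c := ⟨_, rfl⟩
  have hp : 0 < 4 / c := by positivity
  have hK2 : 2 ≤ K := by rw [hK]; linarith
  have hK0 : 0 < K := by linarith
  refine ⟨K, hK0, fun t ht ht1 z hre hz => ?_⟩
  by_contra hbad
  have hbad' : z.im ≠ 0 ∨ deriv (Ht t) z = 0 := by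
    by_contra h'
    push Not at h'
    exact hbad h'
  set T : ℝ := |z.re| with hT
  have hKt : K ≤ K / t := by
    rw [le_div_iff₀ ht]
    nlinarith
  have hT1 : K + 1 ≤ T := by
    have h1 := Real.add_one_le_exp (K / t)
    linarith
  have hT0 : 0 < T := by linarith
  have hT2 : 2 ≤ T := by linarith
  set l : ℝ := Real.log T with hl
  have hlK : K / t ≤ l := by
    rw [hl, Real.le_log_iff_exp_le hT0]
    exact hre
  have hl0 : 0 < l := by
    have : 0 < K / t := by positivity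
    linarith
  have htl : K ≤ t * l := by
    rw [div_le_iff₀ ht] at hlK
    linarith
  have hl1 : 1 ≤ l := by linarith
  have hCt : C ≤ t * l ^ 2 := by
    have h1 : K * l ≤ t * l * l := mul_le_mul_of_nonneg_right htl hl0.le
    have h2 : C ≤ K := by rw [hK]; linarith
    nlinarith
  obtain ⟨R, -, hR⟩ := h t T ht1 hT2 hCt
  have h1 := hR {z} (by
    intro w hw
    rw [Finset.mem_singleton] at hw
    subst hw
    exact ⟨hz, hbad', le_rfl, by linarith⟩)
  rw [Finset.sum_singleton] at h1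
  have h2 := dn_check_order (dn_Hs_diff t) hz (w := ((B + 1 : ℝ) : ℂ) * I) (by
    intro h0
    have h3 := hstrip t ht.le _ h0
    simp only [mul_im, ofReal_re, I_im, mul_one, ofReal_im, I_re, mul_zero, add_zero] at h3
    rw [abs_of_pos (by linarith)] at h3
    linarith)
  have h3 : C * Real.exp (-(c * t * l ^ 2)) * min (R.card : ℝ) (T * l) ≤
      C * Real.exp (-(c * t * l ^ 2)) * T ^ 2 :=
    mul_le_mul_of_nonneg_left ((min_le_right _ _).trans (dn_check_log hT2)) (by positivity)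
  have h4 : T ^ 2 = Real.exp (2 * l) := by
    rw [hl, two_mul, Real.exp_add, Real.exp_log hT0]
    ring
  have h5 : c * t * l ^ 2 ≥ 4 * l := by
    have h6 : 4 ≤ c * K := by
      have h7 : c * (4 / c) ≤ c * K := mul_le_mul_of_nonneg_left (by rw [hK]; linarith) hc.le
      have h8 : c * (4 / c) = 4 := by field_simp
      linarith
    have h9 : c * K ≤ c * (t * l) := mul_le_mul_of_nonneg_left htl hc.le
    have h10 : 4 * l ≤ c * (t * l) * l := mul_le_mul_of_nonneg_right (by linarith) hl0.le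
    linarith
  have h6 : C * Real.exp (-(c * t * l ^ 2)) * T ^ 2 ≤ C * Real.exp (-l) := by
    rw [h4, mul_assoc, ← Real.exp_add]
    apply mul_le_mul_of_nonneg_left _ hC.le
    apply Real.exp_le_exp.2
    linarith
  have h7 : C * Real.exp (-l) < 1 := by
    rw [Real.exp_neg, hl, Real.exp_log hT0]
    rw [← div_eq_mul_inv, div_lt_one hT0]
    have : C ≤ K := by rw [hK]; linarith
    linarith
  linarith

end Pool.Agent.Lib.MP_cd509c_nt.DN
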