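import Pool.Agent.Lib.MP_cd509c_nt.DN.Defs3

/-!
# Stage 4: simple zeros. Statements of the pieces.
-/

set_option autoImplicit false

namespace Pool.Agent.Lib.MP_cd509c_nt.DN

open Complex ComplexConjugate MeasureTheory

/-- Under the hypotheses of `S_HB` the real part of the logarithmic derivative at `0` is
positive. -/
def S_HB4 : Prop := ∀ (ρ η N c : ℝ) (B : ℂ → ℂ), 0 < ρ → 0 < N → 0 ≤ η → η < ρ / 32 →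
  DifferentiableOn ℂ B (Metric.ball 0 ρ) →
  (∀ w ∈ Metric.ball (0 : ℂ) ρ, B w ≠ 0 ∧ |Real.log ‖B w‖ - c - N * w.re| ≤ η * N) →
  0 < (deriv B 0 / B 0).re

/-- Derivatives: a zero at the centre is simple. -/
def S_PDs : Prop := ∃ ε₀ N₀ : ℝ, 0 < ε₀ ∧ 1 ≤ N₀ ∧ ∀ (n : ℕ) (ε Y : ℝ) (R : ℂ → ℂ),
  0 < ε → ε ≤ ε₀ → N₀ ≤ n → 40 ≤ Y → Reg ε n 1 Y R → Sym (la n R) →
  iteratedDeriv n (la n R) 0 = 0 → deriv (iteratedDeriv n (la n R)) 0 ≠ 0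

/-- Heat flow: a zero at the centre is simple. -/
def S_PHs : Prop := ∃ ε₀ N₀ : ℝ, 0 < ε₀ ∧ 1 ≤ N₀ ∧ ∀ (N ε Y : ℝ) (R : ℂ → ℂ),
  0 < ε → ε ≤ ε₀ → N₀ ≤ N → 40 ≤ Y → Reg ε N 1 Y R → Sym (la N R) →
  FH N R 0 = 0 → deriv (FH N R) 0 ≠ 0

/-- Regularity of the normalised function for large `a`, at every `x ≥ 0`. -/
def S_regT : Prop := ∀ ε : ℝ, 0 < ε → ∃ A : ℝ, 1 ≤ A ∧ ∀ x a l : ℝ, 0 ≤ x → A ≤ a →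
  |Real.log ‖s0 x + a‖ - l| ≤ 1 → Reg ε (a * l) 1 100 (Rx x a l)

/-- All zeros of the derivatives in an exponential window are real and simple. -/
def S_winD : Prop := ∃ C : ℝ, 0 < C ∧ ∀ n : ℕ, C ≤ n → ∀ z : ℂ, iteratedDeriv n Xi z = 0 →
  |z.re| ≤ Real.exp (n / C) → z.im = 0 ∧ deriv (iteratedDeriv n Xi) z ≠ 0

/-- All zeros of the heat flow outside an exponential window are real and simple. -/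
def S_winH : Prop := ∃ C : ℝ, 1 ≤ C ∧ ∀ t : ℝ, 0 < t → t ≤ 1 → ∀ z : ℂ,
  Real.exp (C / t) ≤ |z.re| → Ht t z = 0 → z.im = 0 ∧ deriv (Ht t) z ≠ 0

/-- the combinatorial part, for a general set of bad zeros -/
def S_asms : Prop := ∀ C₁ C₂ c : ℝ, 0 < C₁ → 0 < C₂ → 0 < c → ∃ C₃ : ℝ, 0 < C₃ ∧
  ∀ (f : ℂ → ℂ) (P : ℂ → Prop) (T l a N Fv : ℝ) (J : ℕ) (G : ℝ → ℕ → Prop), 1 ≤ N → 0 < a →
  0 < l → N = a * l → 0 ≤ Fv → 1 ≤ T →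
  (∀ x : ℝ, T ≤ x → x ≤ 2 * T → (∀ j ≤ J, G x j) → ∀ z : ℂ, f z = 0 → z.re = x → ¬ P z) →
  (∀ x : ℝ, T ≤ x → x ≤ 2 * T → ∀ j ≤ J, 1 ≤ j → (∀ i, j ≤ i → i ≤ J → G x i) →
    ∀ z : ℂ, f z = 0 → z.re = x → |z.im| ≤ 2 ^ j * a) →
  (∀ x : ℝ, T ≤ x → x ≤ 2 * T → ∀ j ≤ J, 1 ≤ j → (∀ i, j ≤ i → i ≤ J → G x i) →
    ∀ S : Finset ℂ, (∀ z ∈ S, |z.re - x| ≤ 2 ^ j * a ∧ |z.im| ≤ 2 ^ j * a) →
    ∑ z ∈ S, (analyticOrderNatAt f z : ℝ) ≤ C₁ * 2 ^ j * N) →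
  (∀ x : ℝ, T ≤ x → x ≤ 2 * T → G x J) →
  (∀ j < J, ∀ S : Finset ℤ, (∀ k ∈ S, T ≤ (k + 1) * (2 ^ j * a) ∧ k * (2 ^ j * a) ≤ 2 * T ∧
    ∃ x ∈ Set.Icc (k * (2 ^ j * a)) ((k + 1) * (2 ^ j * a)), ¬ G x j) →
    (S.card : ℝ) ≤ C₂ * Fv * (T / (2 ^ j * a)) * Real.exp (-(c * 2 ^ j * N))) →
  ∀ S : Finset ℂ, (∀ z ∈ S, f z = 0 ∧ P z ∧ T ≤ z.re ∧ z.re ≤ 2 * T) →
    ∑ z ∈ S, (analyticOrderNatAt f z : ℝ) ≤ C₃ * T * l * Fv * Real.exp (-(c * N))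

/-- derivatives, one block -/
def S_blockDs : Prop := ∀ A : ℝ, 1 ≤ A → ∃ C c T₀ : ℝ, 0 < C ∧ 0 < c ∧ 2 ≤ T₀ ∧
  ∀ (n : ℕ) (T : ℝ), T₀ ≤ T → C ≤ n → (n : ℝ) ≤ A * Real.log T → ∀ S : Finset ℂ,
    (∀ z ∈ S, iteratedDeriv n Xi z = 0 ∧ (z.im ≠ 0 ∨ deriv (iteratedDeriv n Xi) z = 0) ∧
      T ≤ z.re ∧ z.re ≤ 2 * T) →
    ∑ z ∈ S, (analyticOrderNatAt (iteratedDeriv n Xi) z : ℝ) ≤
      C * T * Real.log T * Real.exp (-(c * n))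

/-- heat flow, one block -/
def S_blockHs : Prop := ∀ A : ℝ, 1 ≤ A → ∃ C c T₀ : ℝ, 0 < C ∧ 0 < c ∧ 2 ≤ T₀ ∧
  ∀ (t T : ℝ), T₀ ≤ T → 0 < t → C ≤ t * Real.log T ^ 2 → t * Real.log T ≤ A → ∀ S : Finset ℂ,
    (∀ z ∈ S, Ht t z = 0 ∧ (z.im ≠ 0 ∨ deriv (Ht t) z = 0) ∧ T ≤ z.re ∧ z.re ≤ 2 * T) →
    ∑ z ∈ S, (analyticOrderNatAt (Ht t) z : ℝ) ≤
      C * T * Real.log T * Real.exp (-(c * t * Real.log T ^ 2))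

/-- derivatives, absolute form -/
def S_Da : Prop := ∃ C c : ℝ, 0 < C ∧ 0 < c ∧ ∀ n : ℕ, C ≤ n → ∀ T : ℝ, 2 ≤ T →
  ∀ S : Finset ℂ, (∀ z ∈ S, iteratedDeriv n Xi z = 0 ∧
      (z.im ≠ 0 ∨ deriv (iteratedDeriv n Xi) z = 0) ∧ |z.re| ≤ T) →
    ∑ z ∈ S, (analyticOrderNatAt (iteratedDeriv n Xi) z : ℝ) ≤
      C * T * Real.log T * Real.exp (-(c * n))

/-- heat flow, absolute form -/
def S_Ha : Prop := ∃ C c : ℝ, 0 < C ∧ 0 < c ∧ ∀ t T : ℝ, t ≤ 1 → 2 ≤ T →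
  C ≤ t * Real.log T ^ 2 → ∀ S : Finset ℂ,
    (∀ z ∈ S, Ht t z = 0 ∧ (z.im ≠ 0 ∨ deriv (Ht t) z = 0) ∧ T ≤ |z.re| ∧ |z.re| ≤ 2 * T) →
    ∑ z ∈ S, (analyticOrderNatAt (Ht t) z : ℝ) ≤
      C * T * Real.log T * Real.exp (-(c * t * Real.log T ^ 2))

/-- Final statement, derivatives: the zeros which are not real or not simple are at most
`C e^{-cn}` times the simple real zeros. -/
def S_Ds : Prop := ∃ C c : ℝ, 0 < C ∧ 0 < c ∧ ∀ n : ℕ, C ≤ n → ∀ T : ℝ, 2 ≤ T →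
  ∃ S' : Finset ℝ, (∀ x ∈ S', |x| ≤ T ∧ iteratedDeriv n Xi x = 0 ∧
      deriv (iteratedDeriv n Xi) x ≠ 0) ∧
    ∀ S : Finset ℂ, (∀ z ∈ S, iteratedDeriv n Xi z = 0 ∧
      (z.im ≠ 0 ∨ deriv (iteratedDeriv n Xi) z = 0) ∧ |z.re| ≤ T) →
      ∑ z ∈ S, (analyticOrderNatAt (iteratedDeriv n Xi) z : ℝ) ≤
        C * Real.exp (-(c * n)) * (S'.card : ℝ)

/-- Final statement, heat flow. -/
def S_Hs : Prop := ∃ C c : ℝ, 0 < C ∧ 0 < c ∧ ∀ t T : ℝ, t ≤ 1 → 2 ≤ T →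
  C ≤ t * Real.log T ^ 2 →
    ∃ S' : Finset ℝ, (∀ x ∈ S', T ≤ x ∧ x ≤ 2 * T ∧ Ht t x = 0 ∧ deriv (Ht t) x ≠ 0) ∧
      ∀ S : Finset ℂ, (∀ z ∈ S, Ht t z = 0 ∧ (z.im ≠ 0 ∨ deriv (Ht t) z = 0) ∧
        T ≤ |z.re| ∧ |z.re| ≤ 2 * T) →
      ∑ z ∈ S, (analyticOrderNatAt (Ht t) z : ℝ) ≤
        C * Real.exp (-(c * t * Real.log T ^ 2)) * (S'.card : ℝ)

end Pool.Agent.Lib.MP_cd509c_nt.DN
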