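import Pool.Agent.Lib.MP_cd509c_nt.DN.Main
import Pool.Agent.Lib.MP_cd509c_nt.DN.P.HB4
import Pool.Agent.Lib.MP_cd509c_nt.DN.P.PDs
import Pool.Agent.Lib.MP_cd509c_nt.DN.P.PHs
import Pool.Agent.Lib.MP_cd509c_nt.DN.P.regT
import Pool.Agent.Lib.MP_cd509c_nt.DN.P.winD
import Pool.Agent.Lib.MP_cd509c_nt.DN.P.winH
import Pool.Agent.Lib.MP_cd509c_nt.DN.P.asms
import Pool.Agent.Lib.MP_cd509c_nt.DN.P.blockDs
import Pool.Agent.Lib.MP_cd509c_nt.DN.P.blockHs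
import Pool.Agent.Lib.MP_cd509c_nt.DN.P.Da
import Pool.Agent.Lib.MP_cd509c_nt.DN.P.Ha
import Pool.Agent.Lib.MP_cd509c_nt.DN.P.Ds
import Pool.Agent.Lib.MP_cd509c_nt.DN.P.Hs

/-!
# Project DN: assembly of the pieces, simple zeros
-/

set_option autoImplicit false

namespace Pool.Agent.Lib.MP_cd509c_nt.DN

open Complex

theorem m_PDs : S_PDs := p_PDs p_farD m_loD p_HB4

theorem m_PHs : S_PHs := p_PHs p_splitH p_splitH2 m_loH p_HB4

theorem m_winD : S_winD := p_winD p_regT p_symR m_PDs p_linkD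

theorem m_winH : S_winH := p_winH p_regT p_symR m_PHs p_linkH

theorem m_blockDs : S_blockDs :=
  p_blockDs p_asms p_top m_reg p_symR m_PD m_ZD m_PDs p_jen p_stripD p_linkD m_mb1

theorem m_blockHs : S_blockHs :=
  p_blockHs p_asms p_top m_reg p_symR m_PH m_ZH m_PHs p_jen p_linkH m_mb1

theorem m_Da : S_Da := p_Da m_blockDs m_winD

theorem m_Ha : S_Ha := p_Ha m_blockHs m_winH

theorem m_Ds : S_Ds := p_Ds m_Da m_realD m_winD

theorem m_Hs : S_Hs := p_Hs m_Ha m_realH m_winH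

/-- Derivatives, final form. -/
theorem m_Dfinal : ∃ C c : ℝ, 0 < C ∧ 0 < c ∧ ∀ n : ℕ, C ≤ n → ∀ T : ℝ, 2 ≤ T →
    ∃ R : Finset ℝ, (∀ x ∈ R, |x| ≤ T ∧ iteratedDeriv n Xi x = 0 ∧
        deriv (iteratedDeriv n Xi) x ≠ 0) ∧
      ∀ S : Finset ℂ, (∀ z ∈ S, iteratedDeriv n Xi z = 0 ∧
        (z.im ≠ 0 ∨ deriv (iteratedDeriv n Xi) z = 0) ∧ |z.re| ≤ T) →
        ∑ z ∈ S, (analyticOrderNatAt (iteratedDeriv n Xi) z : ℝ) ≤
          C * Real.exp (-(c * n)) * min (R.card : ℝ) (T * Real.log T) := by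
  obtain ⟨C₁, c₁, hC₁, hc₁, h1⟩ := m_Ds
  obtain ⟨C₂, c₂, hC₂, hc₂, h2⟩ := m_Da
  refine ⟨max C₁ C₂, min c₁ c₂, by positivity, lt_min hc₁ hc₂, fun n hn T hT => ?_⟩
  obtain ⟨R, hR, h⟩ := h1 n ((le_max_left _ _).trans hn) T hT
  refine ⟨R, hR, fun S hS => ?_⟩
  have hn0 : (0 : ℝ) ≤ n := Nat.cast_nonneg n
  have hl : 0 ≤ T * Real.log T := mul_nonneg (by linarith) (Real.log_nonneg (by linarith))
  have e1 : C₁ * Real.exp (-(c₁ * n)) ≤ max C₁ C₂ * Real.exp (-(min c₁ c₂ * n)) := by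
    apply mul_le_mul (le_max_left _ _) _ (Real.exp_pos _).le (by positivity)
    apply Real.exp_le_exp.2
    have := mul_le_mul_of_nonneg_right (min_le_left c₁ c₂) hn0
    linarith
  have e2 : C₂ * Real.exp (-(c₂ * n)) ≤ max C₁ C₂ * Real.exp (-(min c₁ c₂ * n)) := by
    apply mul_le_mul (le_max_right _ _) _ (Real.exp_pos _).le (by positivity)
    apply Real.exp_le_exp.2
    have := mul_le_mul_of_nonneg_right (min_le_right c₁ c₂) hn0
    linarith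
  have hp : 0 ≤ max C₁ C₂ * Real.exp (-(min c₁ c₂ * n)) := by positivity
  rw [mul_min_of_nonneg _ _ hp]
  apply le_min
  · exact (h S hS).trans (mul_le_mul_of_nonneg_right e1 (Nat.cast_nonneg _))
  · have h3 := h2 n ((le_max_right _ _).trans hn) T hT S hS
    have h4 := mul_le_mul_of_nonneg_right e2 hl
    calc _ ≤ C₂ * T * Real.log T * Real.exp (-(c₂ * n)) := h3
      _ = C₂ * Real.exp (-(c₂ * n)) * (T * Real.log T) := by ring
      _ ≤ _ := h4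

/-- Heat flow, final form. -/
theorem m_Hfinal : ∃ C c : ℝ, 0 < C ∧ 0 < c ∧ ∀ t T : ℝ, t ≤ 1 → 2 ≤ T →
    C ≤ t * Real.log T ^ 2 →
      ∃ R : Finset ℝ, (∀ x ∈ R, T ≤ x ∧ x ≤ 2 * T ∧ Ht t x = 0 ∧ deriv (Ht t) x ≠ 0) ∧
        ∀ S : Finset ℂ, (∀ z ∈ S, Ht t z = 0 ∧ (z.im ≠ 0 ∨ deriv (Ht t) z = 0) ∧
          T ≤ |z.re| ∧ |z.re| ≤ 2 * T) →
          ∑ z ∈ S, (analyticOrderNatAt (Ht t) z : ℝ) ≤
            C * Real.exp (-(c * t * Real.log T ^ 2)) * min (R.card : ℝ) (T * Real.log T) := by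
  obtain ⟨C₁, c₁, hC₁, hc₁, h1⟩ := m_Hs
  obtain ⟨C₂, c₂, hC₂, hc₂, h2⟩ := m_Ha
  refine ⟨max C₁ C₂, min c₁ c₂, by positivity, lt_min hc₁ hc₂, fun t T ht hT htT => ?_⟩
  obtain ⟨R, hR, h⟩ := h1 t T ht hT ((le_max_left _ _).trans htT)
  refine ⟨R, hR, fun S hS => ?_⟩
  have hn0 : 0 ≤ t * Real.log T ^ 2 := le_trans (by positivity) htT
  have hl : 0 ≤ T * Real.log T := mul_nonneg (by linarith) (Real.log_nonneg (by linarith))
  have e1 : C₁ * Real.exp (-(c₁ * t * Real.log T ^ 2)) ≤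
      max C₁ C₂ * Real.exp (-(min c₁ c₂ * t * Real.log T ^ 2)) := by
    apply mul_le_mul (le_max_left _ _) _ (Real.exp_pos _).le (by positivity)
    apply Real.exp_le_exp.2
    have := mul_le_mul_of_nonneg_right (min_le_left c₁ c₂) hn0
    linarith
  have e2 : C₂ * Real.exp (-(c₂ * t * Real.log T ^ 2)) ≤
      max C₁ C₂ * Real.exp (-(min c₁ c₂ * t * Real.log T ^ 2)) := by
    apply mul_le_mul (le_max_right _ _) _ (Real.exp_pos _).le (by positivity)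
    apply Real.exp_le_exp.2
    have := mul_le_mul_of_nonneg_right (min_le_right c₁ c₂) hn0
    linarith
  have hp : 0 ≤ max C₁ C₂ * Real.exp (-(min c₁ c₂ * t * Real.log T ^ 2)) := by positivity
  rw [mul_min_of_nonneg _ _ hp]
  apply le_min
  · exact (h S hS).trans (mul_le_mul_of_nonneg_right e1 (Nat.cast_nonneg _))
  · have h3 := h2 t T ht hT ((le_max_right _ _).trans htT) S hS
    have h4 := mul_le_mul_of_nonneg_right e2 hl
    calc _ ≤ C₂ * T * Real.log T * Real.exp (-(c₂ * t * Real.log T ^ 2)) := h3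
      _ = C₂ * Real.exp (-(c₂ * t * Real.log T ^ 2)) * (T * Real.log T) := by ring
      _ ≤ _ := h4

end Pool.Agent.Lib.MP_cd509c_nt.DN
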