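import Pool.Agent.Lib.MP_cd509c_nt.DN.Defs

/-!
# Stage 2: log-free density (mollified second moment). Statements of the pieces.
-/

set_option autoImplicit false

namespace Pool.Agent.Lib.MP_cd509c_nt.DN

open Complex ComplexConjugate MeasureTheory

/-! ## F. Kloosterman sums, primes, Jutila's circle method -/

/-- `e(x)` -/
noncomputable def ee (x : ℝ) : ℂ := cexp (2 * Real.pi * x * I)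

/-- Kloosterman sum modulo `p` -/
noncomputable def Kl (p : ℕ) (j k : ℤ) : ℂ :=
  ∑ a ∈ (Finset.range p).filter (fun a => a.Coprime p),
    ee ((j * (a : ℝ) + k * (((a : ZMod p)⁻¹).val : ℝ)) / p)

/-- Elementary bound for Kloosterman sums. -/
def S_kl : Prop := ∃ C : ℝ, 0 < C ∧ ∀ p : ℕ, p.Prime → ∀ j k : ℤ,
  ¬ ((p : ℤ) ∣ j ∧ (p : ℤ) ∣ k) → ‖Kl p j k‖ ≤ C * (p : ℝ) ^ (3 / 4 : ℝ)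

/-- primes in `(Q, 4Q]` -/
noncomputable def PQ (Q : ℝ) : Finset ℕ := (Finset.Ioc ⌊Q⌋₊ ⌊4 * Q⌋₊).filter Nat.Prime

def S_pr : Prop := ∀ ε : ℝ, 0 < ε → ∃ c : ℝ, 0 < c ∧ ∀ Q : ℝ, 2 ≤ Q →
  c * Q ^ (1 - ε) ≤ ((PQ Q).card : ℝ)

/-- Jutila's approximation of the unit interval by short intervals around Farey fractions. -/
def S_J1 : Prop := ∀ ε : ℝ, 0 < ε → ε < 1 → ∃ C : ℝ, 0 < C ∧ ∀ (Q B δ : ℝ) (P : Finset ℕ)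
  (G : ℝ → ℂ), 1 ≤ Q → 0 ≤ B → 0 < δ → δ ≤ 1 / 2 → P.Nonempty →
  (∀ q ∈ P, 1 ≤ q ∧ (q : ℝ) ≤ 4 * Q) → Continuous G → Function.Periodic G 1 →
  (∀ x, ‖G x‖ ≤ B) →
  ‖(∫ x in (0 : ℝ)..1, G x) - 1 / (2 * δ * (∑ q ∈ P, (q.totient : ℝ)) : ℝ) *
      ∑ q ∈ P, ∑ a ∈ (Finset.range q).filter (fun a => a.Coprime q),
        ∫ β in (-δ)..δ, G ((a : ℝ) / q + β)‖ ≤
    C * B * Q / ((∑ q ∈ P, (q.totient : ℝ)) * δ ^ ((1 + ε) / 2))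

/-- The modular transformation at a rational point. -/
def S_J2 : Prop := ∀ (q : ℕ) (a a' : ℤ) (ζ : ℂ), 1 ≤ q → (q : ℤ) ∣ a * a' - 1 → 0 < ζ.im →
  Dc ((a : ℂ) / q + ζ) * ((q : ℂ) * ζ) ^ 12 = Dc (-(a' : ℂ) / q - 1 / ((q : ℂ) ^ 2 * ζ))

def S_tauE : Prop := ∃ C : ℝ, 0 < C ∧ ∀ y : ℝ, 0 < y →
  (Summable fun m : ℕ => ‖tau m‖ * Real.exp (-(2 * Real.pi * m * y))) ∧
  ∑' m : ℕ, ‖tau m‖ * Real.exp (-(2 * Real.pi * m * y)) ≤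
    C * y ^ (-6 : ℝ) * (1 + y ^ (-(1 / 2) : ℝ))

/-- Coefficient bound with a power saving. -/
def S_cb : Prop := ∃ C κ : ℝ, 0 < C ∧ 0 < κ ∧ ∀ n : ℕ, 1 ≤ n → ‖tau n‖ ≤ C * (n : ℝ) ^ (6 - κ)

/-- smooth bump: support in `[1/4, 4]`, equal to `1` on `[1/2, 3]` -/
noncomputable def bmp (x : ℝ) : ℝ :=
  Real.smoothTransition (4 * x - 1) * Real.smoothTransition (4 - x)

/-- Periodisation of the bump, Fourier coefficients. -/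
def S_per : Prop := ∃ C : ℝ, 0 < C ∧ ∀ X U : ℝ, 2 ≤ X → X ^ (-2 : ℝ) ≤ U → U ≤ X →
  ∃ c : ℤ → ℂ, c 0 = 0 ∧ (∀ j : ℤ, ‖c j‖ ≤ C * X ^ 4 / (1 + |(j : ℝ)|) ^ 3) ∧
    ∀ G : ℝ → ℂ, Continuous G → Function.Periodic G 1 →
      (∫ x : ℝ, (bmp (x / U) : ℂ) * G x) - U * (∫ x : ℝ, (bmp x : ℂ)) * ∫ x in (0 : ℝ)..1, G x =
        ∫ x in (0 : ℝ)..1, (∑' j : ℤ, c j * ee (j * x)) * G x

/-- Dual side of Jutila's method for a pair `b, c`. -/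
def S_dual : Prop := ∃ C : ℝ, 0 < C ∧ ∀ (X W : ℝ) (b c p : ℕ) (co : ℤ → ℂ) (ζ : ℂ), 2 ≤ X →
  0 ≤ W → 1 ≤ b → (b : ℝ) ≤ X → 1 ≤ c → (c : ℝ) ≤ X → p.Prime → X < p → 0 < ζ.im → ζ.im ≤ 1 →
  co 0 = 0 → (∀ j : ℤ, ‖co j‖ ≤ W / (1 + |(j : ℝ)|) ^ 3) →
  ‖∑ a ∈ (Finset.range p).filter (fun a => a.Coprime p),
      (∑' j : ℤ, co j * ee (j * ((a : ℝ) / p))) *
        (Dc (b * ((a : ℂ) / p + ζ)) * conj (Dc (c * ((a : ℂ) / p + ζ))))‖ ≤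
    C * W * (p : ℝ) ^ (3 / 4 : ℝ) * ζ.im ^ (-12 : ℝ) * (1 + (p : ℝ) ^ 2 * X * ‖ζ‖ ^ 2 / ζ.im)

/-- Equidistribution on short segments with a power saving. -/
def S_EQ : Prop := ∃ C A κ : ℝ, 0 < C ∧ 1 ≤ A ∧ 0 < κ ∧ κ ≤ 1 ∧ ∀ (X U h : ℝ) (b c : ℕ), 2 ≤ X →
  X ^ (-2 : ℝ) ≤ U → U ≤ X → 0 < h → h ≤ 1 → 1 ≤ b → (b : ℝ) ≤ X → 1 ≤ c → (c : ℝ) ≤ X →
  ‖(∫ x : ℝ, (bmp (x / U) : ℂ) * (Dc (b * (x + h * I)) * conj (Dc (c * (x + h * I))))) -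
      U * (∫ x : ℝ, (bmp x : ℂ)) *
        ∫ x in (0 : ℝ)..1, Dc (b * (x + h * I)) * conj (Dc (c * (x + h * I)))‖ ≤
    C * X ^ A * h ^ (-12 + κ)

/-! ## G. Arithmetic of the mollifier -/

/-- multiplicativity of `tau` and the recursion at prime powers -/
def S_tm : Prop := (∀ m n : ℕ, m.Coprime n → tau (m * n) = tau m * tau n) ∧
  (∀ p : ℕ, p.Prime → ∀ j : ℕ,
    tau (p ^ (j + 2)) = tau p * tau (p ^ (j + 1)) - (p : ℂ) ^ 11 * tau (p ^ j)) ∧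
  (∀ n : ℕ, (tau n).im = 0)

/-- lower bound for horocycle averages -/
def S_farey : Prop := ∃ c : ℝ, 0 < c ∧ ∀ h : ℝ, 0 < h → h ≤ 1 →
  c ≤ h ^ 12 * ∫ x in (0 : ℝ)..1, ‖Dc (x + h * I)‖ ^ 2

/-- the Rankin-Selberg series near its pole -/
def S_Lb : Prop := ∃ c C : ℝ, 0 < c ∧ 0 < C ∧ ∀ x : ℝ, 1 < x → x ≤ 2 →
  (Summable fun n : ℕ => ‖tau n‖ ^ 2 / (n : ℝ) ^ (11 + x)) ∧
  c / (x - 1) ≤ ∑' n : ℕ, ‖tau n‖ ^ 2 / (n : ℝ) ^ (11 + x) ∧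
  ∑' n : ℕ, ‖tau n‖ ^ 2 / (n : ℝ) ^ (11 + x) ≤ C / (x - 1)

/-- local factors are bounded -/
def S_locF : Prop := ∃ C : ℝ, 0 < C ∧ ∀ p : ℕ, p.Prime →
  (Summable fun j : ℕ => ‖tau (p ^ j)‖ ^ 2 / (p : ℝ) ^ (12 * j)) ∧
  ∑' j : ℕ, ‖tau (p ^ j)‖ ^ 2 / (p : ℝ) ^ (12 * j) ≤ C

/-- Mertens type upper bound -/
def S_mert : Prop := ∃ C : ℝ, 0 < C ∧ ∀ x : ℝ, 2 ≤ x →
  ∑ p ∈ (Finset.Icc 1 ⌊x⌋₊).filter Nat.Prime, ‖tau p‖ ^ 2 * Real.log p / (p : ℝ) ^ 12 ≤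
    C * Real.log x

/-- coefficients of `L(w) / L(w + s)` -/
noncomputable def ad (s : ℂ) (k : ℕ) : ℂ :=
  ∑ d ∈ k.divisors, muf d * (d : ℂ) ^ (-s) * tau (k / d)

/-- The basic bound. -/
def S_E1 : Prop := ∃ A : ℝ, 1 ≤ A ∧ ∀ θ : ℝ, 0 < θ → θ ≤ 1 → ∃ C : ℝ, 0 < C ∧ ∀ X ξ : ℝ, 2 ≤ X →
  (Summable fun k : ℕ => ‖ad ((1 + ξ * I) / Real.log X) k‖ ^ 2 *
    (k : ℝ) ^ (-(12 + θ / Real.log X))) ∧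
  ∑' k : ℕ, ‖ad ((1 + ξ * I) / Real.log X) k‖ ^ 2 * (k : ℝ) ^ (-(12 + θ / Real.log X)) ≤
    C * (2 + |ξ|) ^ A

/-- weights with a Fourier-Laplace representation -/
def WOK (A K : ℝ) (W : ℝ → ℂ) : Prop := ∃ w : ℝ → ℂ, Continuous w ∧
  (∀ ξ : ℝ, ‖w ξ‖ ≤ K * (2 + |ξ|) ^ (-A)) ∧
  ∀ u : ℝ, 0 ≤ u → W u = ∫ ξ : ℝ, w ξ * cexp (-((1 + ξ * I) * u))

/-- coefficients for the weight `W` -/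
noncomputable def gW (W : ℝ → ℂ) (X : ℝ) (k : ℕ) : ℂ :=
  ∑ d ∈ k.divisors, muf d * W (Real.log d / Real.log X) * tau (k / d)

/-- Uniform majorant for all admissible weights. -/
def S_maj : Prop := ∃ (A : ℝ) (D : ℝ → ℕ → ℝ), 1 ≤ A ∧ (∀ X k, 0 ≤ D X k) ∧
  (∀ (X K : ℝ) (W : ℝ → ℂ), 2 ≤ X → 0 < K → WOK A K W → ∀ k : ℕ, 1 ≤ k →
    ‖gW W X k‖ ^ 2 ≤ K ^ 2 * D X k) ∧
  ∀ θ : ℝ, 0 < θ → θ ≤ 1 → ∃ C : ℝ, 0 < C ∧ ∀ X : ℝ, 2 ≤ X →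
    (Summable fun k : ℕ => D X k * (k : ℝ) ^ (-(12 + θ / Real.log X))) ∧
    ∑' k : ℕ, D X k * (k : ℝ) ^ (-(12 + θ / Real.log X)) ≤ C

/-- smooth splitting function: `Vs u + Vs (-u) = 1` -/
noncomputable def Vs (u : ℝ) : ℝ := Real.smoothTransition ((1 + u) / 2)

/-- frozen weights, `i = 0, 1` -/
noncomputable def WV (i : ℕ) (v : ℝ) (c : ℂ) (u : ℝ) : ℂ :=
  (Pw u : ℂ) * ((iteratedDeriv i Vs (u + v) : ℝ) : ℂ) * cexp (-(c * u))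

/-- the frozen weights are admissible -/
def S_wt : Prop := ∀ A : ℝ, 1 ≤ A → ∃ C : ℝ, 0 < C ∧ ∀ (i : ℕ) (v : ℝ) (c : ℂ), i ≤ 1 →
  WOK A (C * Real.exp (2 * ‖c‖)) (WV i v c)

/-! ## H. The mollified second moment -/

/-- `sum_{b <= X} muf(b) W(log b/log X) Dc(b z)` -/
noncomputable def PhiW (W : ℝ → ℂ) (X : ℝ) (z : ℂ) : ℂ :=
  ∑ b ∈ Finset.Icc 1 ⌊X⌋₊, muf b * W (Real.log b / Real.log X) * Dc (b * z)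

/-- the function on the ray -/
noncomputable def HW (X : ℝ) (d : ℂ) (δ y : ℝ) : ℂ :=
  ∑ b ∈ Finset.Icc 1 ⌊X⌋₊, muf b * Pw (Real.log b / Real.log X) * (b : ℂ) ^ (-d) *
    Vs ((Real.log b + Real.log y) / Real.log X) * Dc (b * (y * cexp (δ * I)))

/-- Parseval on a horocycle -/
def S_par : Prop := ∀ (W : ℝ → ℂ) (X h : ℝ), 2 ≤ X → 0 < h → (∀ u, 1 ≤ u → W u = 0) →
  (Summable fun k : ℕ => ‖gW W X k‖ ^ 2 * Real.exp (-(4 * Real.pi * k * h))) ∧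
  ∫ x in (0 : ℝ)..1, ‖PhiW W X (x + h * I)‖ ^ 2 =
    ∑' k : ℕ, ‖gW W X k‖ ^ 2 * Real.exp (-(4 * Real.pi * k * h))

/-- from the ray to horizontal segments (sub-mean value property) -/
def S_rh : Prop := ∃ C : ℝ, 0 < C ∧ ∀ (f : ℂ → ℂ) (U δ : ℝ), DifferentiableOn ℂ f {z | 0 < z.im} →
  0 < U → 0 < δ → δ ≤ 1 / 4 →
  ∫ y in U..(2 * U), ‖f (y * cexp (δ * I))‖ ^ 2 ≤
    C / (U * δ) * ∫ h in (U * δ / 4)..(4 * U * δ), ∫ x in (U / 2)..(3 * U), ‖f (x + h * I)‖ ^ 2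

/-- block bound, `U >= 1` -/
def S_blk1 : Prop := ∀ (A : ℝ) (D : ℝ → ℕ → ℝ), (∀ X k, 0 ≤ D X k) →
  (∀ X : ℝ, 2 ≤ X → ∀ h : ℝ, 0 < h → Summable fun k : ℕ => D X k * Real.exp (-(h * k))) →
  (∀ (X K : ℝ) (W : ℝ → ℂ), 2 ≤ X → 0 < K → WOK A K W → ∀ k : ℕ, 1 ≤ k →
    ‖gW W X k‖ ^ 2 ≤ K ^ 2 * D X k) →
  ∃ C : ℝ, 0 < C ∧ ∀ (X K U δ : ℝ) (W : ℝ → ℂ), 2 ≤ X → 0 < K → WOK A K W →
    (∀ u, 1 ≤ u → W u = 0) → 1 ≤ U → 0 < δ → δ ≤ 1 / 4 →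
    ∫ y in U..(2 * U), ‖PhiW W X (y * cexp (δ * I))‖ ^ 2 ≤
      C * K ^ 2 * U * ∑' k : ℕ, D X k * Real.exp (-(3 * k * U * δ))

/-- block bound, `X^-2 <= U <= X` -/
def S_blk2 : Prop := ∀ (A : ℝ) (D : ℝ → ℕ → ℝ), 1 < A → (∀ X k, 0 ≤ D X k) →
  (∀ X : ℝ, 2 ≤ X → ∀ h : ℝ, 0 < h → Summable fun k : ℕ => D X k * Real.exp (-(h * k))) →
  (∀ (X K : ℝ) (W : ℝ → ℂ), 2 ≤ X → 0 < K → WOK A K W → ∀ k : ℕ, 1 ≤ k →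
    ‖gW W X k‖ ^ 2 ≤ K ^ 2 * D X k) →
  ∃ C A' κ : ℝ, 0 < C ∧ 1 ≤ A' ∧ 0 < κ ∧ κ ≤ 1 ∧ ∀ (X K U δ : ℝ) (W : ℝ → ℂ), 2 ≤ X → 0 < K →
    WOK A K W → (∀ u, 1 ≤ u → W u = 0) → X ^ (-2 : ℝ) ≤ U → U ≤ X → 0 < δ → δ ≤ 1 / 4 →
    4 * U * δ ≤ 1 →
    ∫ y in U..(2 * U), ‖PhiW W X (y * cexp (δ * I))‖ ^ 2 ≤
      C * K ^ 2 * (U * ∑' k : ℕ, D X k * Real.exp (-(3 * k * U * δ)) +
        X ^ A' * (U * δ) ^ (-12 + κ))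

/-- freezing the splitting weight on a dyadic block -/
def S_frz : Prop := ∀ (X U y δ : ℝ) (d : ℂ), 2 ≤ X → 0 < U → U ≤ y → y ≤ 2 * U → 0 < δ →
  δ ≤ 1 / 4 →
  ‖HW X d δ y‖ ^ 2 ≤
    2 * ‖PhiW (WV 0 (Real.log U / Real.log X) (d * Real.log X)) X (y * cexp (δ * I))‖ ^ 2 +
    2 / Real.log X * ∫ r in (0 : ℝ)..(1 / Real.log X),
      ‖PhiW (WV 1 (Real.log U / Real.log X + r) (d * Real.log X)) X (y * cexp (δ * I))‖ ^ 2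

/-- square norm of `HW` -/
def S_HWsq : Prop := ∃ θ₀ : ℝ, 0 < θ₀ ∧ ∀ θ : ℝ, 0 < θ → θ ≤ θ₀ → ∃ C T₀ : ℝ, 0 < C ∧ 2 ≤ T₀ ∧
  ∀ (T : ℝ) (d : ℂ), T₀ ≤ T →
    IntegrableOn (fun y : ℝ => ‖HW (T ^ θ) d (1 / T) y‖ ^ 2 * y ^ (2 * (6 : ℝ) - 1))
      (Set.Ioi 0) ∧
    ∫ y in Set.Ioi (0 : ℝ), ‖HW (T ^ θ) d (1 / T) y‖ ^ 2 * y ^ (2 * (6 : ℝ) - 1) ≤
      C * T ^ 12 * Real.exp (4 * θ * Real.log T * ‖d‖)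

/-- reflection -/
def S_refl : Prop := ∀ (X δ : ℝ) (d : ℂ), 2 ≤ X → 0 < δ → δ ≤ 1 / 4 →
  ContinuousOn (HW X d δ) (Set.Ioi 0) ∧ MellinConvergent (HW X d δ) ((6 : ℝ) : ℂ) ∧
  ∀ t : ℝ, Real.exp (-((Real.pi / 2 - δ) * t)) * ‖Lam (6 + t * I)‖ * ‖Mol X (t * I + d)‖ ≤
    2 * ‖mellin (HW X d δ) (((6 : ℝ) : ℂ) + t * I)‖

/-- the mollified second moment -/
def S_ML : Prop := ∃ θ₀ C₁ : ℝ, 0 < θ₀ ∧ 1 ≤ C₁ ∧ ∀ θ B : ℝ, 0 < θ → θ ≤ θ₀ → 1 ≤ B →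
  ∃ C : ℝ, 0 < C ∧ ∀ (T : ℝ) (d : ℂ), 2 ≤ T → ‖d‖ ≤ B →
    ∫ y in (T / 4)..(8 * T), ‖LL (y * I)‖ ^ 2 * ‖Mol (T ^ θ) (y * I + d)‖ ^ 2 ≤
      C * T * Real.exp (C₁ * θ * Real.log T * ‖d‖)

end Pool.Agent.Lib.MP_cd509c_nt.DN
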