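import Pool.Agent.Lib.MP_cd509c_nt.DN.Defs

/-!
# Stage 3: many real zeros. Statements of the pieces.
-/

set_option autoImplicit false

namespace Pool.Agent.Lib.MP_cd509c_nt.DN

open Complex ComplexConjugate MeasureTheory

/-- Under the hypotheses of `S_HB` the argument of `B` on the imaginary axis increases with speed
at least `N / 2`, so `B + c conj B` has many zeros there. -/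
def S_HB2 : Prop := ∀ (ρ η N c₀ : ℝ) (B : ℂ → ℂ) (c : ℂ), 0 < ρ → 0 < N → 0 ≤ η → η < ρ / 32 →
  ‖c‖ = 1 → DifferentiableOn ℂ B (Metric.ball 0 ρ) →
  (∀ w ∈ Metric.ball (0 : ℂ) ρ, B w ≠ 0 ∧ |Real.log ‖B w‖ - c₀ - N * w.re| ≤ η * N) →
  ∃ S : Finset ℝ, (∀ τ ∈ S, |τ| ≤ ρ / 2 ∧ B (τ * I) + c * conj (B (τ * I)) = 0) ∧
    ρ * N / 8 - 1 ≤ (S.card : ℝ)

/-- The splitting of the Gaussian integral at complex points. -/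
def S_splitH2 : Prop := ∀ (N ε b Y : ℝ) (R : ℂ → ℂ), 0 < N → 0 < ε → ε ≤ 1 / 100 → 1 ≤ b →
  40 * b ≤ Y → Reg ε N b Y R → Sym (la N R) →
  ∃ c : ℂ, ‖c‖ = 1 ∧ ∀ w : ℂ, |w.im| ≤ 1 → FH N R w = BH N R w + c * conj (BH N R (-conj w))

/-- Derivatives: many zeros on the axis. -/
def S_RD : Prop := ∃ ε₀ N₀ : ℝ, 0 < ε₀ ∧ 1 ≤ N₀ ∧ ∀ (n : ℕ) (ε Y : ℝ) (R : ℂ → ℂ),
  0 < ε → ε ≤ ε₀ → N₀ ≤ n → 40 ≤ Y → Reg ε n 1 Y R → Sym (la n R) →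
  ∃ S : Finset ℝ, (∀ τ ∈ S, |τ| ≤ 1 / 16 ∧ iteratedDeriv n (la n R) (τ * I) = 0) ∧
    (n : ℝ) / 1000 ≤ (S.card : ℝ)

/-- Heat flow: many zeros on the axis. -/
def S_RH : Prop := ∃ ε₀ N₀ : ℝ, 0 < ε₀ ∧ 1 ≤ N₀ ∧ ∀ (N ε Y : ℝ) (R : ℂ → ℂ),
  0 < ε → ε ≤ ε₀ → N₀ ≤ N → 40 ≤ Y → Reg ε N 1 Y R → Sym (la N R) →
  ∃ S : Finset ℝ, (∀ τ ∈ S, |τ| ≤ 1 / 16 ∧ FH N R (τ * I) = 0) ∧ N / 1000 ≤ (S.card : ℝ)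

/-- Derivatives: many real zeros in a block. -/
def S_realD : Prop := ∀ A : ℝ, 1 ≤ A → ∃ C c T₀ : ℝ, 0 < C ∧ 0 < c ∧ 2 ≤ T₀ ∧
  ∀ (n : ℕ) (T : ℝ), T₀ ≤ T → C ≤ n → (n : ℝ) ≤ A * Real.log T → ∃ S : Finset ℝ,
    (∀ x ∈ S, T ≤ x ∧ x ≤ 2 * T ∧ iteratedDeriv n Xi x = 0) ∧ c * T * Real.log T ≤ (S.card : ℝ)

/-- Heat flow: many real zeros in a block. -/
def S_realH : Prop := ∀ A : ℝ, 1 ≤ A → ∃ C c T₀ : ℝ, 0 < C ∧ 0 < c ∧ 2 ≤ T₀ ∧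
  ∀ (t T : ℝ), T₀ ≤ T → 0 < t → C ≤ t * Real.log T ^ 2 → t * Real.log T ≤ A → ∃ S : Finset ℝ,
    (∀ x ∈ S, T ≤ x ∧ x ≤ 2 * T ∧ Ht t x = 0) ∧ c * T * Real.log T ≤ (S.card : ℝ)

/-- Final statement, derivatives: the proportion of the non-real zeros is at most `C e^{-cn}`. -/
def S_Dr : Prop := ∃ C c : ℝ, 0 < C ∧ 0 < c ∧ ∀ n : ℕ, C ≤ n → ∀ T : ℝ, 2 ≤ T →
  ∀ S : Finset ℂ, (∀ z ∈ S, iteratedDeriv n Xi z = 0 ∧ z.im ≠ 0 ∧ |z.re| ≤ T) →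
    ∃ S' : Finset ℝ, (∀ x ∈ S', |x| ≤ T ∧ iteratedDeriv n Xi x = 0) ∧
      ∑ z ∈ S, (analyticOrderNatAt (iteratedDeriv n Xi) z : ℝ) ≤
        C * Real.exp (-(c * n)) * (S'.card : ℝ)

/-- Final statement, heat flow. -/
def S_Hr : Prop := ∃ C c : ℝ, 0 < C ∧ 0 < c ∧ ∀ t T : ℝ, t ≤ 1 → 2 ≤ T →
  C ≤ t * Real.log T ^ 2 → ∀ S : Finset ℂ,
    (∀ z ∈ S, Ht t z = 0 ∧ z.im ≠ 0 ∧ T ≤ |z.re| ∧ |z.re| ≤ 2 * T) →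
    ∃ S' : Finset ℝ, (∀ x ∈ S', T ≤ x ∧ x ≤ 2 * T ∧ Ht t x = 0) ∧
      ∑ z ∈ S, (analyticOrderNatAt (Ht t) z : ℝ) ≤
        C * Real.exp (-(c * t * Real.log T ^ 2)) * (S'.card : ℝ)

end Pool.Agent.Lib.MP_cd509c_nt.DN
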