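import Pool.Agent.Lib.MP_cd509c_nt.DN.P.tay
import Pool.Agent.Lib.MP_cd509c_nt.DN.P.lapD
import Pool.Agent.Lib.MP_cd509c_nt.DN.P.lapH
import Pool.Agent.Lib.MP_cd509c_nt.DN.P.sadD
import Pool.Agent.Lib.MP_cd509c_nt.DN.P.sadH
import Pool.Agent.Lib.MP_cd509c_nt.DN.P.loD
import Pool.Agent.Lib.MP_cd509c_nt.DN.P.loH
import Pool.Agent.Lib.MP_cd509c_nt.DN.P.farD
import Pool.Agent.Lib.MP_cd509c_nt.DN.P.HB
import Pool.Agent.Lib.MP_cd509c_nt.DN.P.PD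
import Pool.Agent.Lib.MP_cd509c_nt.DN.P.ZD
import Pool.Agent.Lib.MP_cd509c_nt.DN.P.splitH
import Pool.Agent.Lib.MP_cd509c_nt.DN.P.domH
import Pool.Agent.Lib.MP_cd509c_nt.DN.P.PH
import Pool.Agent.Lib.MP_cd509c_nt.DN.P.ZH
import Pool.Agent.Lib.MP_cd509c_nt.DN.P.jen
import Pool.Agent.Lib.MP_cd509c_nt.DN.P.top
import Pool.Agent.Lib.MP_cd509c_nt.DN.P.reg1
import Pool.Agent.Lib.MP_cd509c_nt.DN.P.reg2
import Pool.Agent.Lib.MP_cd509c_nt.DN.P.reg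
import Pool.Agent.Lib.MP_cd509c_nt.DN.P.symR
import Pool.Agent.Lib.MP_cd509c_nt.DN.P.mufInv
import Pool.Agent.Lib.MP_cd509c_nt.DN.P.mufSum
import Pool.Agent.Lib.MP_cd509c_nt.DN.P.edge
import Pool.Agent.Lib.MP_cd509c_nt.DN.P.molCrude
import Pool.Agent.Lib.MP_cd509c_nt.DN.P.ray
import Pool.Agent.Lib.MP_cd509c_nt.DN.P.raySq
import Pool.Agent.Lib.MP_cd509c_nt.DN.P.planch
import Pool.Agent.Lib.MP_cd509c_nt.DN.P.gamLo
import Pool.Agent.Lib.MP_cd509c_nt.DN.P.neg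
import Pool.Agent.Lib.MP_cd509c_nt.DN.P.thrL
import Pool.Agent.Lib.MP_cd509c_nt.DN.P.sub
import Pool.Agent.Lib.MP_cd509c_nt.DN.P.cnt1
import Pool.Agent.Lib.MP_cd509c_nt.DN.P.cnt2
import Pool.Agent.Lib.MP_cd509c_nt.DN.P.mb
import Pool.Agent.Lib.MP_cd509c_nt.DN.P.asm
import Pool.Agent.Lib.MP_cd509c_nt.DN.P.stripD
import Pool.Agent.Lib.MP_cd509c_nt.DN.P.linkD
import Pool.Agent.Lib.MP_cd509c_nt.DN.P.linkH
import Pool.Agent.Lib.MP_cd509c_nt.DN.P.blockD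
import Pool.Agent.Lib.MP_cd509c_nt.DN.P.blockH
import Pool.Agent.Lib.MP_cd509c_nt.DN.P.D
import Pool.Agent.Lib.MP_cd509c_nt.DN.P.H
import Pool.Agent.Lib.MP_cd509c_nt.DN.P.kl
import Pool.Agent.Lib.MP_cd509c_nt.DN.P.pr
import Pool.Agent.Lib.MP_cd509c_nt.DN.P.J1
import Pool.Agent.Lib.MP_cd509c_nt.DN.P.J2
import Pool.Agent.Lib.MP_cd509c_nt.DN.P.tauE
import Pool.Agent.Lib.MP_cd509c_nt.DN.P.cb
import Pool.Agent.Lib.MP_cd509c_nt.DN.P.per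
import Pool.Agent.Lib.MP_cd509c_nt.DN.P.dual
import Pool.Agent.Lib.MP_cd509c_nt.DN.P.EQ
import Pool.Agent.Lib.MP_cd509c_nt.DN.P.tm
import Pool.Agent.Lib.MP_cd509c_nt.DN.P.farey
import Pool.Agent.Lib.MP_cd509c_nt.DN.P.Lb
import Pool.Agent.Lib.MP_cd509c_nt.DN.P.locF
import Pool.Agent.Lib.MP_cd509c_nt.DN.P.mert
import Pool.Agent.Lib.MP_cd509c_nt.DN.P.E1
import Pool.Agent.Lib.MP_cd509c_nt.DN.P.maj
import Pool.Agent.Lib.MP_cd509c_nt.DN.P.wt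
import Pool.Agent.Lib.MP_cd509c_nt.DN.P.par
import Pool.Agent.Lib.MP_cd509c_nt.DN.P.rh
import Pool.Agent.Lib.MP_cd509c_nt.DN.P.blk1
import Pool.Agent.Lib.MP_cd509c_nt.DN.P.blk2
import Pool.Agent.Lib.MP_cd509c_nt.DN.P.frz
import Pool.Agent.Lib.MP_cd509c_nt.DN.P.HWsq
import Pool.Agent.Lib.MP_cd509c_nt.DN.P.refl
import Pool.Agent.Lib.MP_cd509c_nt.DN.P.ML
import Pool.Agent.Lib.MP_cd509c_nt.DN.P.I1b
import Pool.Agent.Lib.MP_cd509c_nt.DN.P.I2b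
import Pool.Agent.Lib.MP_cd509c_nt.DN.P.HB2
import Pool.Agent.Lib.MP_cd509c_nt.DN.P.splitH2
import Pool.Agent.Lib.MP_cd509c_nt.DN.P.RD
import Pool.Agent.Lib.MP_cd509c_nt.DN.P.RH
import Pool.Agent.Lib.MP_cd509c_nt.DN.P.realD
import Pool.Agent.Lib.MP_cd509c_nt.DN.P.realH
import Pool.Agent.Lib.MP_cd509c_nt.DN.P.Dr
import Pool.Agent.Lib.MP_cd509c_nt.DN.P.Hr
/-!
# Project DN: assembly of the pieces (log-free form and proportion form)
-/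

set_option autoImplicit false

namespace Pool.Agent.Lib.MP_cd509c_nt.DN

open Complex

theorem m_edge : S_edge := p_edge p_mufInv p_mufSum

theorem m_molCrude : S_molCrude := p_molCrude p_mufSum

theorem m_reg : S_reg := p_reg (p_reg2 p_reg1)

theorem m_loD : S_loD := p_loD p_tay p_lapD (p_sadD p_tay)

theorem m_loH : S_loH := p_loH p_tay p_lapH (p_sadH p_tay)

theorem m_domH : S_domH := p_domH m_loH

theorem m_PD : S_PD := p_PD p_farD m_loD p_HB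

theorem m_ZD : S_ZD := p_ZD p_farD m_loD

theorem m_PH : S_PH := p_PH p_splitH m_domH m_loH p_HB

theorem m_ZH : S_ZH := p_ZH p_splitH m_domH m_loH

theorem m_mb (F : ℝ → ℝ) (hF : ∀ T, 2 ≤ T → 0 ≤ F T) (h1 : S_I1 F) (h2 : S_I2 F) : S_mb F :=
  p_mb F hF (p_cnt1 p_sub F h1) (p_cnt2 p_sub F h2)

/-- Derivatives, from the two interfaces. -/
theorem m_D (F : ℝ → ℝ) (hF : ∀ T, 2 ≤ T → 0 ≤ F T) (hmono : MonotoneOn F (Set.Ici 2))
    (h1 : S_I1 F) (h2 : S_I2 F) : S_D F :=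
  p_D F hF hmono (p_blockD p_asm p_top m_reg p_symR m_PD m_ZD p_jen p_stripD p_linkD F hF
    (m_mb F hF h1 h2))

theorem m_cb : S_cb := p_cb p_kl p_pr p_J1 p_J2 p_tauE

theorem m_EQ : S_EQ := p_EQ p_pr p_J1 p_per (p_dual p_kl p_J2 p_tauE)

theorem m_locF : S_locF := p_locF m_cb

theorem m_mert : S_mert := p_mert p_tm (p_Lb p_farey) m_locF

theorem m_maj : S_maj := p_maj (p_E1 p_tm m_locF m_mert)

theorem m_HWsq : S_HWsq :=
  p_HWsq m_maj p_wt (p_blk1 p_par p_rh) (p_blk2 p_par p_rh m_EQ p_mufSum) p_frz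

theorem m_ML : S_ML := p_ML m_HWsq (p_refl p_ray) p_planch p_gamLo p_tm

theorem m_I1 : S_I1 (fun _ => 1) := p_I1b p_thrL m_edge m_molCrude m_ML

theorem m_I2 : S_I2 (fun _ => 1) := p_I2b p_thrL m_ML p_neg p_mufSum m_molCrude

theorem m_mb1 : S_mb (fun _ => 1) := m_mb _ (fun _ _ => zero_le_one) m_I1 m_I2

theorem m_blockD : S_blockD (fun _ => 1) :=
  p_blockD p_asm p_top m_reg p_symR m_PD m_ZD p_jen p_stripD p_linkD _ (fun _ _ => zero_le_one)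
    m_mb1

theorem m_blockH : S_blockH (fun _ => 1) :=
  p_blockH p_asm p_top m_reg p_symR m_PH m_ZH p_jen p_linkH _ (fun _ => zero_le_one) m_mb1

theorem m_D1 : S_D (fun _ => 1) :=
  p_D _ (fun _ _ => zero_le_one) (fun _ _ _ _ _ => le_rfl) m_blockD

theorem m_H1 : S_H (fun _ => 1) := p_H _ (fun _ _ => zero_le_one) m_blockH

theorem m_realD : S_realD :=
  p_realD p_top m_reg p_symR (p_RD p_farD m_loD p_HB2) p_linkD m_mb1

theorem m_realH : S_realH :=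
  p_realH p_top m_reg p_symR (p_RH p_splitH p_splitH2 m_loH p_HB2) p_linkH m_mb1

/-- Derivatives: the zeros which are not real are at most `C e^{-cn}` times the real zeros. -/
theorem m_Dr : S_Dr := p_Dr m_D1 m_realD

/-- The same for the heat flow. -/
theorem m_Hr : S_Hr := p_Hr m_H1 m_realH

end Pool.Agent.Lib.MP_cd509c_nt.DN
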